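import Pool.Agent.Helper74.TY.XPair

/-!
MP_8ee768_co, project TH-Y', stage X: the equations for the pair excesses in the frame
`x = 12`, `Y = {8, 9, 10, 11}`.
-/

set_option autoImplicit false

namespace Pool.Agent.Helper62.TY.XU

open Finset
open Pool.Agent.Helper97.CV
open Pool.Agent.Helper74.TY

/-- the equations of stage X for the pair excesses -/
structure XFacts (m : Fin 13 → Fin 13 → ℕ) : Prop where
  sym : ∀ u v, m u v = m v u
  z89 : m 8 9 = 0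
  r8 : m 0 8 + m 1 8 + m 2 8 + m 3 8 + m 4 8 + m 5 8 + m 6 8 + m 7 8 = 6
  r9 : m 0 9 + m 1 9 + m 2 9 + m 3 9 + m 4 9 + m 5 9 + m 6 9 + m 7 9 = 6
  c0 : m 0 8 + m 0 9 + m 0 10 + m 0 11 = 3
  c1 : m 1 8 + m 1 9 + m 1 10 + m 1 11 = 3
  c2 : m 2 8 + m 2 9 + m 2 10 + m 2 11 = 3
  c3 : m 3 8 + m 3 9 + m 3 10 + m 3 11 = 3
  c4 : m 4 8 + m 4 9 + m 4 10 + m 4 11 = 3
  c5 : m 5 8 + m 5 9 + m 5 10 + m 5 11 = 3
  c6 : m 6 8 + m 6 9 + m 6 10 + m 6 11 = 3
  c7 : m 7 8 + m 7 9 + m 7 10 + m 7 11 = 3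
  w0 : m 0 1 + (m 0 2 + (m 0 3 + (m 0 4 + (m 0 5 + (m 0 6 + m 0 7))))) = 5
  w1 : m 0 1 + (m 1 2 + (m 1 3 + (m 1 4 + (m 1 5 + (m 1 6 + m 1 7))))) = 5
  w2 : m 0 2 + (m 1 2 + (m 2 3 + (m 2 4 + (m 2 5 + (m 2 6 + m 2 7))))) = 5
  w3 : m 0 3 + (m 1 3 + (m 2 3 + (m 3 4 + (m 3 5 + (m 3 6 + m 3 7))))) = 5
  w4 : m 0 4 + (m 1 4 + (m 2 4 + (m 3 4 + (m 4 5 + (m 4 6 + m 4 7))))) = 5
  w5 : m 0 5 + (m 1 5 + (m 2 5 + (m 3 5 + (m 4 5 + (m 5 6 + m 5 7))))) = 5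
  w6 : m 0 6 + (m 1 6 + (m 2 6 + (m 3 6 + (m 4 6 + (m 5 6 + m 6 7))))) = 5
  w7 : m 0 7 + (m 1 7 + (m 2 7 + (m 3 7 + (m 4 7 + (m 5 7 + m 6 7))))) = 5

theorem xfacts {B : Finset (Finset (Fin 13))} (h : XVec B 12 Y8) : XFacts (mm B) := by
  have hH : ((insert 12 Y8)ᶜ : Finset (Fin 13)) = {0, 1, 2, 3, 4, 5, 6, 7} := by decide
  have hR : ∀ y ∈ Y8, mm B 0 y + mm B 1 y + mm B 2 y + mm B 3 y + mm B 4 y + mm B 5 y +
      mm B 6 y + mm B 7 y = 6 := by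
    intro y hy
    have h1 := h.row_six hy
    rw [hH] at h1
    rw [mm_comm B 0, mm_comm B 1, mm_comm B 2, mm_comm B 3, mm_comm B 4, mm_comm B 5,
      mm_comm B 6, mm_comm B 7, ← h1]
    rw [sum_insert (by decide), sum_insert (by decide), sum_insert (by decide),
      sum_insert (by decide), sum_insert (by decide), sum_insert (by decide),
      sum_insert (by decide), sum_singleton]
    omega
  have hC : ∀ z : Fin 13, z ≠ 12 → z ∉ Y8 → mm B z 8 + mm B z 9 + mm B z 10 + mm B z 11 = 3 := by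
    intro z hz hzY
    have h1 := h.col hz hzY
    unfold Y8 at h1
    rw [sum_insert (by decide), sum_insert (by decide), sum_insert (by decide),
      sum_singleton] at h1
    rw [mm_comm B z 8, mm_comm B z 9, mm_comm B z 10, mm_comm B z 11]
    omega
  have hW : ∀ z : Fin 13, z ≠ 12 → z ∉ Y8 →
      ∑ v ∈ ({0, 1, 2, 3, 4, 5, 6, 7} : Finset (Fin 13)).erase z, mm B z v = 5 := by
    intro z hz hzY
    have h1 := h.row_heavy hz hzY
    rwa [hH] at h1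
  have r8 := hR 8 (by decide)
  have r9 := hR 9 (by decide)
  have z89 := h.mm_six (y := 8) (y' := 9) (by decide) (by decide) (by decide)
  have c0 := hC 0 (by decide) (by decide)
  have c1 := hC 1 (by decide) (by decide)
  have c2 := hC 2 (by decide) (by decide)
  have c3 := hC 3 (by decide) (by decide)
  have c4 := hC 4 (by decide) (by decide)
  have c5 := hC 5 (by decide) (by decide)
  have c6 := hC 6 (by decide) (by decide)
  have c7 := hC 7 (by decide) (by decide)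
  have w0 := hW 0 (by decide) (by decide)
  have w1 := hW 1 (by decide) (by decide)
  have w2 := hW 2 (by decide) (by decide)
  have w3 := hW 3 (by decide) (by decide)
  have w4 := hW 4 (by decide) (by decide)
  have w5 := hW 5 (by decide) (by decide)
  have w6 := hW 6 (by decide) (by decide)
  have w7 := hW 7 (by decide) (by decide)
  have e0 : ({0, 1, 2, 3, 4, 5, 6, 7} : Finset (Fin 13)).erase 0 = {1, 2, 3, 4, 5, 6, 7} := by
    decide
  have e1 : ({0, 1, 2, 3, 4, 5, 6, 7} : Finset (Fin 13)).erase 1 = {0, 2, 3, 4, 5, 6, 7} := by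
    decide
  have e2 : ({0, 1, 2, 3, 4, 5, 6, 7} : Finset (Fin 13)).erase 2 = {0, 1, 3, 4, 5, 6, 7} := by
    decide
  have e3 : ({0, 1, 2, 3, 4, 5, 6, 7} : Finset (Fin 13)).erase 3 = {0, 1, 2, 4, 5, 6, 7} := by
    decide
  have e4 : ({0, 1, 2, 3, 4, 5, 6, 7} : Finset (Fin 13)).erase 4 = {0, 1, 2, 3, 5, 6, 7} := by
    decide
  have e5 : ({0, 1, 2, 3, 4, 5, 6, 7} : Finset (Fin 13)).erase 5 = {0, 1, 2, 3, 4, 6, 7} := by
    decide
  have e6 : ({0, 1, 2, 3, 4, 5, 6, 7} : Finset (Fin 13)).erase 6 = {0, 1, 2, 3, 4, 5, 7} := by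
    decide
  have e7 : ({0, 1, 2, 3, 4, 5, 6, 7} : Finset (Fin 13)).erase 7 = {0, 1, 2, 3, 4, 5, 6} := by
    decide
  rw [e0] at w0
  rw [e1] at w1
  rw [e2] at w2
  rw [e3] at w3
  rw [e4] at w4
  rw [e5] at w5
  rw [e6] at w6
  rw [e7] at w7
  rw [sum_insert (by decide), sum_insert (by decide), sum_insert (by decide),
    sum_insert (by decide), sum_insert (by decide), sum_insert (by decide), sum_singleton]
    at w0 w1 w2 w3 w4 w5 w6 w7
  rw [mm_comm B 1 0] at w1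
  rw [mm_comm B 2 0, mm_comm B 2 1] at w2
  rw [mm_comm B 3 0, mm_comm B 3 1, mm_comm B 3 2] at w3
  rw [mm_comm B 4 0, mm_comm B 4 1, mm_comm B 4 2, mm_comm B 4 3] at w4
  rw [mm_comm B 5 0, mm_comm B 5 1, mm_comm B 5 2, mm_comm B 5 3, mm_comm B 5 4] at w5
  rw [mm_comm B 6 0, mm_comm B 6 1, mm_comm B 6 2, mm_comm B 6 3, mm_comm B 6 4,
    mm_comm B 6 5] at w6
  rw [mm_comm B 7 0, mm_comm B 7 1, mm_comm B 7 2, mm_comm B 7 3, mm_comm B 7 4,
    mm_comm B 7 5, mm_comm B 7 6] at w7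
  exact ⟨mm_comm B, z89, r8, r9, c0, c1, c2, c3, c4, c5, c6, c7, w0, w1, w2, w3, w4, w5, w6, w7⟩

end Pool.Agent.Helper62.TY.XU
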