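import Pool.Agent.Helper55.TY.M10
import Pool.Agent.Helper62.TY.XFacts

/-!
MP_8ee768_co, project TH-Y', stage X: the kill test with the caps of stage X for helper55's
machine M10 (pair word `f`, frame `K = {10, 11, 12}`, outside points `0, .., 9`).

`capK f = true` if a lower bound of `mm 8 9` is positive, or a row sum inside the heavy points is
at least 6, or a column sum `mm z 8 + mm z 9` is at least 4, or a row sum of 8 or 9 is at least 7.
`capK_ok : XVec B 12 Y8 → KillOK capK B`.
-/

set_option autoImplicit false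
set_option exponentiation.threshold 20000

namespace Pool.Agent.Helper62.TY.XCap

open Finset
open Pool.Agent.Helper63.SIMD
open Pool.Agent.Helper89.CV (OddCover ofMask)
open Pool.Agent.Helper97.CV Pool.Agent.Helper97.CV.Kill10 Pool.Agent.Helper97.CV.Cube
open Pool.Agent.Helper91.TY (testBit_fld)
open Pool.Agent.Helper55.TY Pool.Agent.Helper55.TY.M10
open Pool.Agent.Helper74.TY
open Pool.Agent.Helper62.TY.XU (XFacts xfacts)

/-! ### program -/

/-- lower bounds of the pair excesses, capped at 3 -/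
def tw (f : ℕ) : ℕ :=
  Nat.add (Nat.add
    (Nat.land (Nat.shiftRight (Nat.add f cT2) 7) cO2)
    (Nat.land (Nat.shiftRight (Nat.add f cT5) 7) cO2))
    (Nat.land (Nat.shiftRight (Nat.add f cT8) 7) cO2)

/-- the points `0, .., 7` -/
def cLo : ℕ := Nat.mod cC8 (Nat.pow 2 2048)

/-- the offsets of the rows -/
def kA : ℕ := Nat.mul 122 cLo

/-- the offsets of the columns and of the rows of 8 and 9 -/
def kB : ℕ := Nat.add (Nat.mul 124 cLo) (Nat.mul 121 (Nat.xor cC8 cLo))

/-- the result word of the test: `T` the word of the lower bounds, `A` its part inside the heavy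
points -/
def capW (T A : ℕ) : ℕ :=
  Nat.lor (Nat.land (Nat.lor
    (Nat.add (Nat.land (Nat.shiftRight (Nat.mul A cC1) 4096) cM1) kA)
    (Nat.add (Nat.land (Nat.shiftRight (Nat.mul (Nat.xor T A) cC1) 4096) cM1) kB)) cH)
    (Nat.shiftRight T 6144)

/-- THE KILL TEST -/
def capK (f : ℕ) : Bool :=
  (fun T => Nat.ble 1 (capW T (Nat.mod T (Nat.pow 2 2048)))) (tw f)

/-! ### words -/

theorem raw_pow (a b : ℕ) : Nat.pow a b = a ^ b := rfl

/-- the fields below 256 -/
def lo (a : ℕ → ℕ) (r : ℕ) : ℕ := if r < 256 then a r else 0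

/-- the other fields -/
def hi' (a : ℕ → ℕ) (r : ℕ) : ℕ := if r < 256 then 0 else a r

theorem pk_lo {a : ℕ → ℕ} (ha : ∀ i < 1024, a i < 2 ^ 8) :
    pk 8 1024 a % 2 ^ 2048 = pk 8 1024 (lo a) := by
  have h1 : pk 8 1024 a % 2 ^ 2048 < 2 ^ (8 * 1024) := lt_of_le_of_lt (Nat.mod_le _ _) (pk_lt ha)
  rw [← pk_fld h1]
  refine pk_congr fun r hr => ?_
  refine Nat.eq_of_testBit_eq fun j => ?_
  rw [testBit_fld, Nat.testBit_mod_two_pow]
  unfold lo
  by_cases hj : j < 8
  · by_cases h256 : r < 256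
    · rw [if_pos h256, decide_eq_true hj, decide_eq_true (by omega : 8 * r + j < 2048),
        Bool.true_and, Bool.true_and]
      have h2 := congrArg (fun v => Nat.testBit v j) (fld_pk ha hr)
      simp only [testBit_fld, decide_eq_true hj, Bool.true_and] at h2
      exact h2
    · rw [if_neg h256, decide_eq_false (by omega : ¬ 8 * r + j < 2048), Bool.false_and,
        Bool.and_false, Nat.zero_testBit]
  · rw [decide_eq_false hj, Bool.false_and, Nat.testBit_lt_two_pow]
    have h3 : (if r < 256 then a r else 0) < 2 ^ 8 := by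
      split_ifs
      · exact ha r hr
      · exact Nat.two_pow_pos 8
    exact lt_of_lt_of_le h3 (Nat.pow_le_pow_right (by norm_num) (by omega))

theorem lo_lt {a : ℕ → ℕ} (ha : ∀ i < 1024, a i < 2 ^ 8) : ∀ i < 1024, lo a i < 2 ^ 8 := by
  intro i hi
  unfold lo
  split_ifs
  · exact ha i hi
  · exact Nat.two_pow_pos 8

theorem pk_hi {a : ℕ → ℕ} (ha : ∀ i < 1024, a i < 2 ^ 8) :
    pk 8 1024 a ^^^ pk 8 1024 (lo a) = pk 8 1024 (hi' a) := by
  rw [pk_xor ha (lo_lt ha)]
  refine pk_congr fun r _ => ?_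
  unfold lo hi'
  split_ifs
  · exact Nat.xor_self _
  · exact Nat.xor_zero _

theorem cC8_pk : cC8 = pk 8 1024 (onS P1 1) := by
  rw [cC8_eq, pk_onS_one fun r hr => P1_lt hr]

theorem onS_lt (S : Finset ℕ) {c : ℕ} (hc : c < 2 ^ 8) : ∀ i < 1024, onS S c i < 2 ^ 8 := by
  intro i _
  unfold onS
  split_ifs
  · exact hc
  · exact Nat.two_pow_pos 8

theorem cLo_pk : cLo = pk 8 1024 (lo (onS P1 1)) := by
  have h := pk_lo (onS_lt P1 (c := 1) (by norm_num))
  rw [← cC8_pk] at h
  exact h

theorem kA_pk : kA = pk 8 1024 (fun r => 122 * lo (onS P1 1) r) := by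
  unfold kA
  rw [raw_mul, cLo_pk, mul_pk]

theorem kB_pk : kB = pk 8 1024 (fun r => 124 * lo (onS P1 1) r + 121 * hi' (onS P1 1) r) := by
  unfold kB
  rw [raw_add, raw_mul, raw_mul, raw_xor, cLo_pk, cC8_pk, pk_hi (onS_lt P1 (by norm_num)),
    mul_pk, mul_pk, pk_add]

theorem cM1_pk : cM1 = pk 8 1024 (onS P1 255) := by
  rw [← kM1_eq]
  unfold kM1
  rw [M10.rep_one, mul_one]

theorem cH_pk : cH = pk 8 1024 (onS P1 128) := by
  rw [← kH_eq]
  unfold kH
  rw [M10.rep_one, mul_one]

/-- the word of the lower bounds -/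
theorem tw_pk {p : ℕ → ℕ} (hp : ∀ r, p r ≤ 127) : tw (pk 8 1024 p) = pk 8 1024 (tF p) := by
  have ht : ∀ k, 1 ≤ k → k ≤ 128 →
      ((pk 8 1024 p + kT 1 k) >>> 7) &&& kO2 1 =
      pk 8 1024 (fun r => if r ∈ P2 then (if k ≤ p r then 1 else 0) else 0) := by
    intro k hk1 hk
    have e1 : kT 1 k = pk 8 1024 (onS P2 (128 - k)) := by
      unfold kT
      rw [M10.rep_one, mul_one]
    have e2 : kO2 1 = pk 8 1024 (onS P2 1) := by
      unfold kO2
      rw [M10.rep_one, mul_one]
    rw [e1, e2, pk_add]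
    have h := cube_shr7 (n := 1) (v := fun _ r => p r + onS P2 (128 - k) r) (o := onS P2 1)
      (fun _ _ r _ => by
        have := hp r
        show p r + onS P2 (128 - k) r < 2 ^ 8
        unfold onS
        split_ifs <;> omega) (fun r _ => by
        unfold onS
        split_ifs <;> omega)
    rw [cube_one, cube_one, cube_one] at h
    rw [h]
    refine pk_congr fun r _ => ?_
    unfold onS
    by_cases hr : r ∈ P2
    · simp only [if_pos hr]
      exact thr (hp r) hk hk1
    · simp only [if_neg hr, Nat.and_zero]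
  unfold tw
  rw [raw_add, raw_add, raw_add, raw_add, raw_add, raw_land, raw_land, raw_land, raw_shr, raw_shr,
    raw_shr, ← kT2_eq, ← kT5_eq, ← kT8_eq, ← kO2_eq, ht 2 (by norm_num) (by norm_num),
    ht 5 (by norm_num) (by norm_num), ht 8 (by norm_num) (by norm_num), pk_add, pk_add]
  refine pk_congr fun r _ => ?_
  unfold tF
  by_cases hr : r ∈ P2
  · simp only [if_pos hr]
  · simp only [if_neg hr]

/-- sums over the neighbours -/
def nb (t : ℕ → ℕ) (r : ℕ) : ℕ :=
  if r ∈ P1 then ∑ q ∈ P1, KillW.ext 1024 t (r + q) else 0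

theorem corr_pk {t : ℕ → ℕ} (ht : ∀ r, t r ≤ 3) :
    ((pk 8 1024 t * cC1) >>> 4096) &&& cM1 = pk 8 1024 (nb t) := by
  have e : (4096 : ℕ) = 8 * 512 := by norm_num
  rw [cM1_pk, cC1_eq, e, corr1 (by norm_num) (fun p hp => P1_le hp) (fun r _ => ht r)
    (by rw [P1_card]; norm_num) (fun r hr => P1_lt hr)]
  rfl

theorem nb_le {t : ℕ → ℕ} (ht : ∀ r, t r ≤ 3) (r : ℕ) : nb t r ≤ 30 := by
  unfold nb
  have h1 : ∑ q ∈ P1, KillW.ext 1024 t (r + q) ≤ P1.card * 3 := sum_ext_le fun s => ht s
  rw [P1_card] at h1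
  split_ifs
  · omega
  · omega

theorem capW_zero {t : ℕ → ℕ} (ht : ∀ r, t r ≤ 3) (h768 : ∀ r, 768 ≤ r → t r = 0)
    (h1 : ∀ z < 8, nb (lo t) (2 ^ z) ≤ 5) (h2 : ∀ z < 8, nb (hi' t) (2 ^ z) ≤ 3)
    (h3 : nb (lo t) (2 ^ 8) = 0) (h4 : nb (lo t) (2 ^ 9) = 0)
    (h5 : nb (hi' t) (2 ^ 8) ≤ 6) (h6 : nb (hi' t) (2 ^ 9) ≤ 6) :
    capW (pk 8 1024 t) (pk 8 1024 (lo t)) = 0 := by
  have t8 : ∀ i < 1024, t i < 2 ^ 8 := fun i _ => lt_of_le_of_lt (ht i) (by norm_num)
  have hlo : ∀ r, lo t r ≤ 3 := by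
    intro r
    unfold lo
    split_ifs
    · exact ht r
    · omega
  have hhi : ∀ r, hi' t r ≤ 3 := by
    intro r
    unfold hi'
    split_ifs
    · omega
    · exact ht r
  have l1 : ∀ r, lo (onS P1 1) r ≤ 1 := by
    intro r
    unfold lo onS
    split_ifs <;> omega
  have l2 : ∀ r, hi' (onS P1 1) r ≤ 1 := by
    intro r
    unfold hi' onS
    split_ifs <;> omega
  unfold capW
  rw [raw_xor, raw_mul, raw_mul, raw_shr, raw_shr, raw_shr, raw_land, raw_land, raw_land,
    raw_add, raw_add, pk_hi t8, corr_pk hlo, corr_pk hhi, kA_pk, kB_pk, pk_add, pk_add, cH_pk]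
  show ((pk 8 1024 (fun r => nb (lo t) r + 122 * lo (onS P1 1) r) |||
    pk 8 1024 (fun r => nb (hi' t) r + (124 * lo (onS P1 1) r + 121 * hi' (onS P1 1) r))) &&&
    pk 8 1024 (onS P1 128)) ||| (pk 8 1024 t) >>> 6144 = 0
  have b1 : ∀ r < 1024, nb (lo t) r + 122 * lo (onS P1 1) r < 2 ^ 8 := by
    intro r _
    have g1 := nb_le hlo r
    have g2 := l1 r
    omega
  have b2 : ∀ r < 1024, nb (hi' t) r + (124 * lo (onS P1 1) r + 121 * hi' (onS P1 1) r) <
      2 ^ 8 := by
    intro r _
    have g1 := nb_le hhi r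
    have g2 : 124 * lo (onS P1 1) r + 121 * hi' (onS P1 1) r ≤ 124 := by
      unfold lo hi' onS
      split_ifs <;> omega
    omega
  rw [pk_lor b1 b2, pk_land (fun r hr => Nat.or_lt_two_pow (b1 r hr) (b2 r hr))
    (onS_lt P1 (by norm_num))]
  have e1 : pk 8 1024 (fun r => (nb (lo t) r + 122 * lo (onS P1 1) r |||
      (nb (hi' t) r + (124 * lo (onS P1 1) r + 121 * hi' (onS P1 1) r))) &&& onS P1 128 r) = 0 := by
    rw [← pk_zero_fun]
    refine pk_congr fun r _ => ?_
    by_cases hr : r ∈ P1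
    · have hz : ∃ z < 10, r = 2 ^ z := by
        rw [P1_eq, mem_image] at hr
        obtain ⟨z, hz, rfl⟩ := hr
        exact ⟨z, mem_range.1 hz, rfl⟩
      obtain ⟨z, hz, rfl⟩ := hz
      have e3 : onS P1 128 (2 ^ z) = 128 := if_pos hr
      have g : nb (lo t) (2 ^ z) + 122 * lo (onS P1 1) (2 ^ z) < 2 ^ 7 ∧
          nb (hi' t) (2 ^ z) + (124 * lo (onS P1 1) (2 ^ z) + 121 * hi' (onS P1 1) (2 ^ z)) <
          2 ^ 7 := by
        by_cases h8 : z < 8
        · have g1 := h1 z h8
          have g2 := h2 z h8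
          have g3 : 2 ^ z < 256 := by
            calc 2 ^ z < 2 ^ 8 := Nat.pow_lt_pow_right (by norm_num) h8
              _ = 256 := by norm_num
          have g4 : lo (onS P1 1) (2 ^ z) = 1 := by
            unfold lo onS
            rw [if_pos g3, if_pos hr]
          have g5 : hi' (onS P1 1) (2 ^ z) = 0 := by
            unfold hi'
            rw [if_pos g3]
          rw [g4, g5]
          omega
        · have g3 : ¬ 2 ^ z < 256 := by
            have : 2 ^ 8 ≤ 2 ^ z := Nat.pow_le_pow_right (by norm_num) (by omega)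
            omega
          have g4 : lo (onS P1 1) (2 ^ z) = 0 := by
            unfold lo
            rw [if_neg g3]
          have g5 : hi' (onS P1 1) (2 ^ z) = 1 := by
            unfold hi' onS
            rw [if_neg g3, if_pos hr]
          rw [g4, g5]
          have hz2 : z = 8 ∨ z = 9 := by omega
          rcases hz2 with rfl | rfl
          · rw [h3]
            omega
          · rw [h4]
            omega
      have g6 := Nat.or_lt_two_pow g.1 g.2
      rw [e3]
      have g7 := land128 (x := nb (lo t) (2 ^ z) + 122 * lo (onS P1 1) (2 ^ z) |||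
        (nb (hi' t) (2 ^ z) + (124 * lo (onS P1 1) (2 ^ z) + 121 * hi' (onS P1 1) (2 ^ z))))
        (by omega)
      rw [g7, if_neg (by omega)]
    · have e3 : onS P1 128 r = 0 := if_neg hr
      rw [e3, Nat.and_zero]
  have e2 : (pk 8 1024 t) >>> 6144 = 0 := by
    have h7 : pk 8 1024 t = pk 8 768 t := by
      unfold pk
      refine (sum_subset (range_mono (by norm_num)) fun r _ hr => ?_).symm
      rw [h768 r (by rw [mem_range] at hr; omega), zero_mul]
    rw [h7, Nat.shiftRight_eq_div_pow]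
    refine Nat.div_eq_of_lt (lt_of_lt_of_eq (pk_lt fun i _ => t8 i (by omega)) ?_)
    norm_num
  rw [e1, e2]
  rfl

/-! ### the sums -/

/-- abstract form of the sums: `t (2 ^ z + 2 ^ w)` is bounded by a symmetric function -/
theorem sums {m : Fin 13 → Fin 13 → ℕ} (hm : XFacts m) {t : ℕ → ℕ}
    (h0 : ∀ r, r ∉ P2 → t r = 0)
    (ht : ∀ z w : Fin 13, z.val < 10 → w.val < 10 → z ≠ w →
      t (2 ^ z.val + 2 ^ w.val) ≤ m z w) :
    (∀ z < 8, nb (lo t) (2 ^ z) ≤ 5) ∧ (∀ z < 8, nb (hi' t) (2 ^ z) ≤ 3) ∧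
      nb (lo t) (2 ^ 8) = 0 ∧ nb (lo t) (2 ^ 9) = 0 ∧
      nb (hi' t) (2 ^ 8) ≤ 6 ∧ nb (hi' t) (2 ^ 9) ≤ 6 := by
  have hle : ∀ (s : ℕ → ℕ) (z : ℕ), nb s (2 ^ z) ≤
      ∑ w ∈ range 10, KillW.ext 1024 s (2 ^ z + 2 ^ w) := by
    intro s z
    unfold nb
    split_ifs
    · rw [sum_P1]
    · exact Nat.zero_le _
  have hd : ∀ z < 10, ∀ s : ℕ → ℕ, (∀ r, r ∉ P2 → s r = 0) →
      KillW.ext 1024 s (2 ^ z + 2 ^ z) = 0 := by
    intro z hz s hs
    unfold KillW.ext
    rw [← two_mul, ← pow_succ']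
    by_cases h9 : z < 9
    · rw [hs _ (two_pow_notMem h9), ite_self]
    · have h10 : z = 9 := by omega
      rw [h10, if_neg (by norm_num)]
  have lo0 : ∀ r, r ∉ P2 → lo t r = 0 := by
    intro r hr
    unfold lo
    rw [h0 r hr, ite_self]
  have hi0 : ∀ r, r ∉ P2 → hi' t r = 0 := by
    intro r hr
    unfold hi'
    rw [h0 r hr, ite_self]
  have x1 : ∀ r, r < 1024 → ∀ s : ℕ → ℕ, KillW.ext 1024 s r = s r := by
    intro r hr s
    unfold KillW.ext
    rw [if_pos hr]
  obtain ⟨sym, z89, r8, r9, c0, c1, c2, c3, c4, c5, c6, c7, w0, w1, w2, w3, w4, w5, w6, w7⟩ := hm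
  have T01 : t 3 ≤ m 0 1 := ht 0 1 (by decide) (by decide) (by decide)
  have T02 : t 5 ≤ m 0 2 := ht 0 2 (by decide) (by decide) (by decide)
  have T03 : t 9 ≤ m 0 3 := ht 0 3 (by decide) (by decide) (by decide)
  have T04 : t 17 ≤ m 0 4 := ht 0 4 (by decide) (by decide) (by decide)
  have T05 : t 33 ≤ m 0 5 := ht 0 5 (by decide) (by decide) (by decide)
  have T06 : t 65 ≤ m 0 6 := ht 0 6 (by decide) (by decide) (by decide)
  have T07 : t 129 ≤ m 0 7 := ht 0 7 (by decide) (by decide) (by decide)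
  have T08 : t 257 ≤ m 0 8 := ht 0 8 (by decide) (by decide) (by decide)
  have T09 : t 513 ≤ m 0 9 := ht 0 9 (by decide) (by decide) (by decide)
  have T12 : t 6 ≤ m 1 2 := ht 1 2 (by decide) (by decide) (by decide)
  have T13 : t 10 ≤ m 1 3 := ht 1 3 (by decide) (by decide) (by decide)
  have T14 : t 18 ≤ m 1 4 := ht 1 4 (by decide) (by decide) (by decide)
  have T15 : t 34 ≤ m 1 5 := ht 1 5 (by decide) (by decide) (by decide)
  have T16 : t 66 ≤ m 1 6 := ht 1 6 (by decide) (by decide) (by decide)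
  have T17 : t 130 ≤ m 1 7 := ht 1 7 (by decide) (by decide) (by decide)
  have T18 : t 258 ≤ m 1 8 := ht 1 8 (by decide) (by decide) (by decide)
  have T19 : t 514 ≤ m 1 9 := ht 1 9 (by decide) (by decide) (by decide)
  have T23 : t 12 ≤ m 2 3 := ht 2 3 (by decide) (by decide) (by decide)
  have T24 : t 20 ≤ m 2 4 := ht 2 4 (by decide) (by decide) (by decide)
  have T25 : t 36 ≤ m 2 5 := ht 2 5 (by decide) (by decide) (by decide)
  have T26 : t 68 ≤ m 2 6 := ht 2 6 (by decide) (by decide) (by decide)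
  have T27 : t 132 ≤ m 2 7 := ht 2 7 (by decide) (by decide) (by decide)
  have T28 : t 260 ≤ m 2 8 := ht 2 8 (by decide) (by decide) (by decide)
  have T29 : t 516 ≤ m 2 9 := ht 2 9 (by decide) (by decide) (by decide)
  have T34 : t 24 ≤ m 3 4 := ht 3 4 (by decide) (by decide) (by decide)
  have T35 : t 40 ≤ m 3 5 := ht 3 5 (by decide) (by decide) (by decide)
  have T36 : t 72 ≤ m 3 6 := ht 3 6 (by decide) (by decide) (by decide)
  have T37 : t 136 ≤ m 3 7 := ht 3 7 (by decide) (by decide) (by decide)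
  have T38 : t 264 ≤ m 3 8 := ht 3 8 (by decide) (by decide) (by decide)
  have T39 : t 520 ≤ m 3 9 := ht 3 9 (by decide) (by decide) (by decide)
  have T45 : t 48 ≤ m 4 5 := ht 4 5 (by decide) (by decide) (by decide)
  have T46 : t 80 ≤ m 4 6 := ht 4 6 (by decide) (by decide) (by decide)
  have T47 : t 144 ≤ m 4 7 := ht 4 7 (by decide) (by decide) (by decide)
  have T48 : t 272 ≤ m 4 8 := ht 4 8 (by decide) (by decide) (by decide)
  have T49 : t 528 ≤ m 4 9 := ht 4 9 (by decide) (by decide) (by decide)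
  have T56 : t 96 ≤ m 5 6 := ht 5 6 (by decide) (by decide) (by decide)
  have T57 : t 160 ≤ m 5 7 := ht 5 7 (by decide) (by decide) (by decide)
  have T58 : t 288 ≤ m 5 8 := ht 5 8 (by decide) (by decide) (by decide)
  have T59 : t 544 ≤ m 5 9 := ht 5 9 (by decide) (by decide) (by decide)
  have T67 : t 192 ≤ m 6 7 := ht 6 7 (by decide) (by decide) (by decide)
  have T68 : t 320 ≤ m 6 8 := ht 6 8 (by decide) (by decide) (by decide)
  have T69 : t 576 ≤ m 6 9 := ht 6 9 (by decide) (by decide) (by decide)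
  have T78 : t 384 ≤ m 7 8 := ht 7 8 (by decide) (by decide) (by decide)
  have T79 : t 640 ≤ m 7 9 := ht 7 9 (by decide) (by decide) (by decide)
  have T89 : t 768 ≤ m 8 9 := ht 8 9 (by decide) (by decide) (by decide)
  have h256 : t 256 = 0 := h0 256 (by decide +kernel)
  refine ⟨?_, ?_, ?_, ?_, ?_, ?_⟩
  · intro z hz
    refine (hle _ z).trans ?_
    have hd1 := hd z (by omega) (lo t) lo0
    interval_cases z
    · simp only [sum_range_succ, range_zero, sum_empty, Nat.reducePow, Nat.reduceAdd, lo, x1,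
        Nat.reduceLT, if_true, if_false, zero_add, add_zero] at hd1 ⊢
      clear * - hd1 w0 T01 T02 T03 T04 T05 T06 T07
      omega
    · simp only [sum_range_succ, range_zero, sum_empty, Nat.reducePow, Nat.reduceAdd, lo, x1,
        Nat.reduceLT, if_true, if_false, zero_add, add_zero] at hd1 ⊢
      clear * - hd1 w1 T01 T12 T13 T14 T15 T16 T17
      omega
    · simp only [sum_range_succ, range_zero, sum_empty, Nat.reducePow, Nat.reduceAdd, lo, x1,
        Nat.reduceLT, if_true, if_false, zero_add, add_zero] at hd1 ⊢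
      clear * - hd1 w2 T02 T12 T23 T24 T25 T26 T27
      omega
    · simp only [sum_range_succ, range_zero, sum_empty, Nat.reducePow, Nat.reduceAdd, lo, x1,
        Nat.reduceLT, if_true, if_false, zero_add, add_zero] at hd1 ⊢
      clear * - hd1 w3 T03 T13 T23 T34 T35 T36 T37
      omega
    · simp only [sum_range_succ, range_zero, sum_empty, Nat.reducePow, Nat.reduceAdd, lo, x1,
        Nat.reduceLT, if_true, if_false, zero_add, add_zero] at hd1 ⊢
      clear * - hd1 w4 T04 T14 T24 T34 T45 T46 T47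
      omega
    · simp only [sum_range_succ, range_zero, sum_empty, Nat.reducePow, Nat.reduceAdd, lo, x1,
        Nat.reduceLT, if_true, if_false, zero_add, add_zero] at hd1 ⊢
      clear * - hd1 w5 T05 T15 T25 T35 T45 T56 T57
      omega
    · simp only [sum_range_succ, range_zero, sum_empty, Nat.reducePow, Nat.reduceAdd, lo, x1,
        Nat.reduceLT, if_true, if_false, zero_add, add_zero] at hd1 ⊢
      clear * - hd1 w6 T06 T16 T26 T36 T46 T56 T67
      omega
    · simp only [sum_range_succ, range_zero, sum_empty, Nat.reducePow, Nat.reduceAdd, lo, x1,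
        Nat.reduceLT, if_true, if_false, zero_add, add_zero] at hd1 ⊢
      clear * - hd1 w7 T07 T17 T27 T37 T47 T57 T67
      omega
  · intro z hz
    refine (hle _ z).trans ?_
    interval_cases z
    · simp only [sum_range_succ, range_zero, sum_empty, Nat.reducePow, Nat.reduceAdd, hi', x1,
        Nat.reduceLT, if_true, if_false, zero_add, add_zero]
      clear * - c0 T08 T09
      omega
    · simp only [sum_range_succ, range_zero, sum_empty, Nat.reducePow, Nat.reduceAdd, hi', x1,
        Nat.reduceLT, if_true, if_false, zero_add, add_zero]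
      clear * - c1 T18 T19
      omega
    · simp only [sum_range_succ, range_zero, sum_empty, Nat.reducePow, Nat.reduceAdd, hi', x1,
        Nat.reduceLT, if_true, if_false, zero_add, add_zero]
      clear * - c2 T28 T29
      omega
    · simp only [sum_range_succ, range_zero, sum_empty, Nat.reducePow, Nat.reduceAdd, hi', x1,
        Nat.reduceLT, if_true, if_false, zero_add, add_zero]
      clear * - c3 T38 T39
      omega
    · simp only [sum_range_succ, range_zero, sum_empty, Nat.reducePow, Nat.reduceAdd, hi', x1,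
        Nat.reduceLT, if_true, if_false, zero_add, add_zero]
      clear * - c4 T48 T49
      omega
    · simp only [sum_range_succ, range_zero, sum_empty, Nat.reducePow, Nat.reduceAdd, hi', x1,
        Nat.reduceLT, if_true, if_false, zero_add, add_zero]
      clear * - c5 T58 T59
      omega
    · simp only [sum_range_succ, range_zero, sum_empty, Nat.reducePow, Nat.reduceAdd, hi', x1,
        Nat.reduceLT, if_true, if_false, zero_add, add_zero]
      clear * - c6 T68 T69
      omega
    · simp only [sum_range_succ, range_zero, sum_empty, Nat.reducePow, Nat.reduceAdd, hi', x1,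
        Nat.reduceLT, if_true, if_false, zero_add, add_zero]
      clear * - c7 T78 T79 h256
      omega
  · refine Nat.le_zero.1 ((hle _ 8).trans (le_of_eq ?_))
    simp only [sum_range_succ, range_zero, sum_empty, Nat.reducePow, Nat.reduceAdd, lo, x1,
      Nat.reduceLT, if_true, if_false, zero_add, add_zero]
  · refine Nat.le_zero.1 ((hle _ 9).trans (le_of_eq ?_))
    simp only [sum_range_succ, range_zero, sum_empty, Nat.reducePow, Nat.reduceAdd, lo, x1,
      Nat.reduceLT, if_true, if_false, zero_add, add_zero]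
    unfold KillW.ext
    simp
  · refine (hle _ 8).trans ?_
    have hd1 := hd 8 (by omega) (hi' t) hi0
    simp only [sum_range_succ, range_zero, sum_empty, Nat.reducePow, Nat.reduceAdd, hi', x1,
      Nat.reduceLT, if_true, if_false, zero_add, add_zero] at hd1 ⊢
    clear * - hd1 r8 z89 T89 T08 T18 T28 T38 T48 T58 T68 T78
    omega
  · refine (hle _ 9).trans ?_
    have hd1 := hd 9 (by omega) (hi' t) hi0
    simp only [Nat.reducePow, Nat.reduceAdd] at hd1
    simp only [sum_range_succ, range_zero, sum_empty, Nat.reducePow, Nat.reduceAdd, hd1]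
    simp only [hi', x1, Nat.reduceLT, if_true, if_false, zero_add, add_zero]
    clear * - r9 z89 T89 T09 T19 T29 T39 T49 T59 T69 T79
    omega

/-- SOUNDNESS OF THE KILL TEST -/
theorem capK_ok {B : Finset (Finset (Fin 13))} (h : XVec B 12 Y8) : KillOK capK B := by
  intro p hp hp0
  have hB := h.odd
  have h35 := Lam_empty_le hB h.best.le
  have hp127 : ∀ r, p r ≤ 127 := by
    intro r
    by_cases hr : r ∈ P2
    · exact ((hp r hr).trans ((Lam_le_empty B _).trans h35)).trans (by norm_num)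
    · rw [hp0 r hr]
      exact Nat.zero_le _
  have hpair : ∀ z w : Fin 13, z.val < 10 → w.val < 10 → z ≠ w →
      tF p (2 ^ z.val + 2 ^ w.val) ≤ mm B z w := by
    intro z w hz hw hzw
    refine (tF_third _ _).trans ?_
    by_cases hr : 2 ^ z.val + 2 ^ w.val ∈ P2
    · have h1 := hp _ hr
      have h2 := ofMask_pair ⟨z.val, hz⟩ ⟨w.val, hw⟩ fun h => hzw (Fin.ext (Fin.mk.inj_iff.1 h))
      have h3 : ofMask (2 ^ z.val + 2 ^ w.val) = {z, w} := h2
      rw [h3, Lam_pair hB hzw] at h1
      omega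
    · rw [hp0 _ hr]
      exact Nat.zero_le _
  have ht0 : ∀ r, r ∉ P2 → tF p r = 0 := by
    intro r hr
    unfold tF
    rw [if_neg hr]
  obtain ⟨s1, s2, s3, s4, s5, s6⟩ := sums (xfacts h) ht0 hpair
  have h768 : ∀ r, 768 ≤ r → tF p r = 0 := by
    intro r hr
    by_cases hr2 : r ∈ P2
    · have h1 : ∀ r ∈ P2, 768 ≤ r → r = 768 := by decide +kernel
      have h2 := h1 r hr2 hr
      have h3 := hpair 8 9 (by decide) (by decide) (by decide)
      rw [(xfacts h).z89] at h3
      rw [h2]
      exact Nat.le_zero.1 h3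
    · exact ht0 r hr2
  unfold capK
  simp only [raw_mod, raw_pow]
  rw [tw_pk hp127, pk_lo fun i _ => lt_of_le_of_lt (tF_le p i) (by norm_num),
    capW_zero (tF_le p) h768 s1 s2 s3 s4 s5 s6]
  rfl

end Pool.Agent.Helper62.TY.XCap
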