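import Pool.Agent.Helper74.TY.RuleX

/-!
MP_8ee768_co, project TH-Y': rule (8) in weighted form. `g` is any weight on the quads with
`g q ≤ ex B q` (the bad quads known so far); `phi i = (i - 1) (i - 2) / 2`,
`psi i = (i - 2) (i - 3) / 2`.

General: `rule8_one`, `rule8_two` (identities for every set `K`), `phiW_le`, `psiW_le`.
Stage X (`XVec`, vector `(0; 6^4 | 8^8)`): `T1` (slack of `x + Y`), `T1Y` (slack of `Y`),
`T3` (slack of `z + Y`, `z` heavy), `T3x` (slack of `x + z + Y`), `T5` (slack of `z + Y - y`),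
`T6` (slack of `z + z' + Y`), `T2` (light pairs), the row and column caps for the lower
bounds `(LamW g {u, v} + 1) / 3` of `mm B u v`, and the forms for a set `E` of bad quads.
-/

set_option autoImplicit false

namespace Pool.Agent.Helper62.TY

open Finset
open Pool.Agent.Helper89.CV (OddCover)
open Pool.Agent.Helper97.CV Pool.Agent.Helper4.CV Pool.Agent.Helper74.TY

/-- `(i - 1) (i - 2) / 2` for `i = 0, .., 4` -/
def phi (i : ℕ) : ℕ := if i = 0 then 1 else if i = 3 then 1 else if i = 4 then 3 else 0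

/-- `(i - 2) (i - 3) / 2` for `i = 0, .., 4` -/
def psi (i : ℕ) : ℕ := if i = 0 then 3 else if i = 1 then 1 else if i = 4 then 1 else 0

theorem sum_phi (B : Finset (Finset (Fin 13))) (K : Finset (Fin 13)) :
    ∑ q ∈ quads, phi (q ∩ K).card * ex B q = aa B K 0 + aa B K 3 + 3 * aa B K 4 := by
  rw [sum_aa]
  simp [phi]

theorem sum_psi (B : Finset (Finset (Fin 13))) (K : Finset (Fin 13)) :
    ∑ q ∈ quads, psi (q ∩ K).card * ex B q = 3 * aa B K 0 + aa B K 1 + aa B K 4 := by
  rw [sum_aa]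
  simp [psi]

/-- rule (8) for `t = 1`, any set `K` -/
theorem rule8_one {B : Finset (Finset (Fin 13))} (hB : OddCover B) (K : Finset (Fin 13)) :
    4 * ∑ q ∈ quads, phi (q ∩ K).card * ex B q + 16 * K.card + 4 * ∑ z ∈ K, MM B z =
      52 + ∑ z, MM B z + 2 * (K.card * (K.card - 1)) + 6 * ww B K K := by
  have h0 := aa_zero hB K
  have h1 := aa_one hB K
  have h2 := aa_two hB K
  rw [sum_phi]
  omega

/-- rule (8) for `t = 2`, any set `K` -/
theorem rule8_two {B : Finset (Finset (Fin 13))} (hB : OddCover B) (K : Finset (Fin 13)) :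
    4 * ∑ q ∈ quads, psi (q ∩ K).card * ex B q + 32 * K.card + 8 * ∑ z ∈ K, MM B z =
      3 * (52 + ∑ z, MM B z) + 2 * (K.card * (K.card - 1)) + 6 * ww B K K := by
  have h0 := aa_zero hB K
  have h1 := aa_one hB K
  have h2 := aa_two hB K
  rw [sum_psi]
  omega

theorem weight_le {B : Finset (Finset (Fin 13))} {g : Finset (Fin 13) → ℕ}
    (hg : ∀ q, q.card = 4 → g q ≤ ex B q) (f : ℕ → ℕ) (K : Finset (Fin 13)) :
    ∑ q ∈ quads, f (q ∩ K).card * g q ≤ ∑ q ∈ quads, f (q ∩ K).card * ex B q :=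
  sum_le_sum fun q hq => Nat.mul_le_mul_left _ (hg q (mem_quads.1 hq))

/-- weighted form of a slack bound, `t = 1` -/
theorem phiW_le {B : Finset (Finset (Fin 13))} {g : Finset (Fin 13) → ℕ}
    (hg : ∀ q, q.card = 4 → g q ≤ ex B q) {K : Finset (Fin 13)} {s : ℕ}
    (hs : aa B K 0 + aa B K 3 + 3 * aa B K 4 ≤ s) :
    ∑ q ∈ quads, phi (q ∩ K).card * g q ≤ s :=
  (weight_le hg phi K).trans (by rw [sum_phi]; exact hs)

/-- weighted form of a slack bound, `t = 2` -/
theorem psiW_le {B : Finset (Finset (Fin 13))} {g : Finset (Fin 13) → ℕ}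
    (hg : ∀ q, q.card = 4 → g q ≤ ex B q) {K : Finset (Fin 13)} {s : ℕ}
    (hs : 3 * aa B K 0 + aa B K 1 + aa B K 4 ≤ s) :
    ∑ q ∈ quads, psi (q ∩ K).card * g q ≤ s :=
  (weight_le hg psi K).trans (by rw [sum_psi]; exact hs)

/-- the weight of a set of bad quads -/
def ind (E : Finset (Finset (Fin 13))) (q : Finset (Fin 13)) : ℕ := if q ∈ E then 1 else 0

theorem ind_le {B E : Finset (Finset (Fin 13))} (hE : ∀ q ∈ E, 1 ≤ ex B q)
    (q : Finset (Fin 13)) (_ : q.card = 4) : ind E q ≤ ex B q := by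
  unfold ind
  split_ifs with h
  · exact hE q h
  · exact Nat.zero_le _

/-- number of bad quads of `E` disjoint from `K`, with 3 points in `K`, inside `K` -/
theorem set_slack {B E : Finset (Finset (Fin 13))} (hE : ∀ q ∈ E, 1 ≤ ex B q)
    (hc : ∀ q ∈ E, q.card = 4) {K : Finset (Fin 13)} {s : ℕ}
    (hs : aa B K 0 + aa B K 3 + 3 * aa B K 4 ≤ s) :
    (E.filter fun q => (q ∩ K).card = 0).card + (E.filter fun q => (q ∩ K).card = 3).card +
      3 * (E.filter fun q => (q ∩ K).card = 4).card ≤ s := by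
  have h0 : ∀ i, (E.filter fun q => (q ∩ K).card = i).card ≤ aa B K i := by
    intro i
    unfold aa
    have h1 : E.filter (fun q => (q ∩ K).card = i) ⊆ quads.filter fun q => (q ∩ K).card = i := by
      intro q hq
      rw [mem_filter] at hq ⊢
      exact ⟨mem_quads.2 (hc q hq.1), hq.2⟩
    calc (E.filter fun q => (q ∩ K).card = i).card
        = ∑ q ∈ E.filter fun q => (q ∩ K).card = i, 1 := by rw [card_eq_sum_ones]
      _ ≤ ∑ q ∈ E.filter fun q => (q ∩ K).card = i, ex B q :=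
          sum_le_sum fun q hq => hE q (mem_filter.1 hq).1
      _ ≤ _ := sum_le_sum_of_subset h1
  have h1 := h0 0
  have h2 := h0 3
  have h3 := h0 4
  omega

theorem LamW_le {B : Finset (Finset (Fin 13))} {g : Finset (Fin 13) → ℕ}
    (hg : ∀ q, q.card = 4 → g q ≤ ex B q) (s : Finset (Fin 13)) : LamW g s ≤ Lam B s := by
  unfold Lam LamW
  exact sum_le_sum fun q hq => hg q (mem_quads.1 (mem_filter.1 hq).1)

section X

variable {B : Finset (Finset (Fin 13))} {x : Fin 13} {Y : Finset (Fin 13)}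
  {g : Finset (Fin 13) → ℕ}

theorem ww_Y (h : XVec B x Y) : ww B Y Y = 0 := by
  unfold ww
  exact sum_eq_zero fun y hy => sum_eq_zero fun z hz =>
    h.mm_six hy (mem_of_mem_erase hz) (ne_of_mem_erase hz).symm

/-- slack of `Y` -/
theorem slack_Y (h : XVec B x Y) : aa B Y 0 + aa B Y 3 + 3 * aa B Y 4 = 1 := by
  have h1 := slack_four_five h.odd h.sum88 (K := Y) (Or.inl h.card)
  rw [ww_Y h, sum_congr rfl h.six, sum_const, h.card] at h1
  simp only [smul_eq_mul] at h1
  omega

/-- slack of `x + z + Y`, `z` heavy -/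
theorem slack_xz (h : XVec B x Y) {z : Fin 13} (hz : z ≠ x) (hzY : z ∉ Y) :
    aa B (insert x (insert z Y)) 0 + aa B (insert x (insert z Y)) 3 +
      3 * aa B (insert x (insert z Y)) 4 = 3 := by
  have hx : x ∉ insert z Y := by
    rw [mem_insert, not_or]
    exact ⟨fun e => hz e.symm, h.notMem⟩
  have h1 := rule8_one h.odd (insert x (insert z Y))
  have hc : (insert x (insert z Y)).card = 6 := by
    rw [card_insert_of_notMem hx, card_insert_of_notMem hzY, h.card]
  have hw : ww B (insert x (insert z Y)) (insert x (insert z Y)) =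
      ww B (insert z Y) (insert z Y) := by
    unfold ww
    rw [sum_insert hx, erase_insert hx, sum_eq_zero fun v hv => h.mm_zero fun e => hx (e ▸ hv),
      zero_add]
    refine sum_congr rfl fun v hv => ?_
    have hne : x ≠ v := fun e => hx (e ▸ hv)
    rw [erase_insert_of_ne hne, sum_insert fun e => hx (mem_of_mem_erase e), mm_comm,
      h.mm_zero hne.symm, zero_add]
  rw [sum_phi, hc, hw, ww_insert hzY fun y hy y' hy' hne => h.mm_six hy hy' hne, h.col hz hzY,
    sum_insert hx, h.zero, sum_insert hzY, h.eight z hz hzY, sum_congr rfl h.six, sum_const,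
    h.card, h.sum88] at h1
  simp only [smul_eq_mul] at h1
  omega

/-- slack of `z + Y - y`: `8 - 3 mm y z` -/
theorem slack_erase (h : XVec B x Y) {y z : Fin 13} (hy : y ∈ Y) (hz : z ≠ x) (hzY : z ∉ Y) :
    aa B (insert z (Y.erase y)) 0 + aa B (insert z (Y.erase y)) 3 +
      3 * aa B (insert z (Y.erase y)) 4 + 3 * mm B y z = 8 := by
  have hzE : z ∉ Y.erase y := fun e => hzY (mem_of_mem_erase e)
  have hc : (Y.erase y).card = 3 := by rw [card_erase_of_mem hy, h.card]
  have h1 := slack_four_five h.odd h.sum88 (K := insert z (Y.erase y))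
    (Or.inl (by rw [card_insert_of_notMem hzE, hc]))
  rw [ww_insert hzE fun a ha b hb hne => h.mm_six (mem_of_mem_erase ha) (mem_of_mem_erase hb) hne,
    sum_insert hzE, h.eight z hz hzY,
    sum_congr rfl fun a ha => h.six a (mem_of_mem_erase ha), sum_const, hc] at h1
  simp only [smul_eq_mul] at h1
  have h2 := h.col hz hzY
  rw [← add_sum_erase _ _ hy] at h2
  omega

/-- slack of `z + z' + Y`: `4 + 3 mm z z'` -/
theorem slack_zz (h : XVec B x Y) {z z' : Fin 13} (hz : z ≠ x) (hzY : z ∉ Y) (hz' : z' ≠ x)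
    (hzY' : z' ∉ Y) (hne : z ≠ z') :
    aa B (insert z (insert z' Y)) 0 + aa B (insert z (insert z' Y)) 3 +
      3 * aa B (insert z (insert z' Y)) 4 = 4 + 3 * mm B z z' := by
  have hzI : z ∉ insert z' Y := by
    rw [mem_insert, not_or]
    exact ⟨hne, hzY⟩
  have h1 := rule8_one h.odd (insert z (insert z' Y))
  have hc : (insert z (insert z' Y)).card = 6 := by
    rw [card_insert_of_notMem hzI, card_insert_of_notMem hzY', h.card]
  have hcol : ∑ y ∈ Y, mm B z y = 3 := by
    rw [← h.col hz hzY]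
    exact sum_congr rfl fun v _ => mm_comm B z v
  have hw : ww B (insert z (insert z' Y)) (insert z (insert z' Y)) =
      2 * (mm B z z' + 3) + ww B (insert z' Y) (insert z' Y) := by
    unfold ww
    rw [sum_insert hzI, erase_insert hzI]
    have h2 : ∀ v ∈ insert z' Y, ∑ u ∈ (insert z (insert z' Y)).erase v, mm B v u =
        mm B z v + ∑ u ∈ (insert z' Y).erase v, mm B v u := by
      intro v hv
      have hnv : z ≠ v := fun e => hzI (e ▸ hv)
      rw [erase_insert_of_ne hnv, sum_insert fun e => hzI (mem_of_mem_erase e), mm_comm B v z]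
    have h3 : ∑ v ∈ insert z' Y, mm B z v = mm B z z' + 3 := by
      rw [sum_insert hzY', hcol]
    rw [sum_congr rfl h2, sum_add_distrib, h3]
    omega
  rw [sum_phi, hc, hw, ww_insert hzY' fun y hy y' hy' hne => h.mm_six hy hy' hne,
    h.col hz' hzY', sum_insert hzI, h.eight z hz hzY, sum_insert hzY', h.eight z' hz' hzY',
    sum_congr rfl h.six, sum_const, h.card, h.sum88] at h1
  simp only [smul_eq_mul] at h1
  omega

/-- T1: weighted slack of `x + Y` -/
theorem T1 (h : XVec B x Y) (hg : ∀ q, q.card = 4 → g q ≤ ex B q) :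
    ∑ q ∈ quads, phi (q ∩ insert x Y).card * g q ≤ 1 :=
  phiW_le hg h.slack.le

/-- T1Y: weighted slack of `Y` -/
theorem T1Y (h : XVec B x Y) (hg : ∀ q, q.card = 4 → g q ≤ ex B q) :
    ∑ q ∈ quads, phi (q ∩ Y).card * g q ≤ 1 :=
  phiW_le hg (slack_Y h).le

/-- T3: weighted slack of `z + Y` -/
theorem T3 (h : XVec B x Y) {z : Fin 13} (hz : z ≠ x) (hzY : z ∉ Y)
    (hg : ∀ q, q.card = 4 → g q ≤ ex B q) :
    ∑ q ∈ quads, phi (q ∩ insert z Y).card * g q ≤ 2 :=
  phiW_le hg (h.slack_two hz hzY).le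

/-- T3x: weighted slack of `x + z + Y` -/
theorem T3x (h : XVec B x Y) {z : Fin 13} (hz : z ≠ x) (hzY : z ∉ Y)
    (hg : ∀ q, q.card = 4 → g q ≤ ex B q) :
    ∑ q ∈ quads, phi (q ∩ insert x (insert z Y)).card * g q ≤ 3 :=
  phiW_le hg (slack_xz h hz hzY).le

/-- T2: two points of `Y` lie in total weight at most 1 -/
theorem T2 (h : XVec B x Y) {y y' : Fin 13} (hy : y ∈ Y) (hy' : y' ∈ Y) (hne : y ≠ y')
    (hg : ∀ q, q.card = 4 → g q ≤ ex B q) : LamW g {y, y'} ≤ 1 := by
  have h1 := LamW_le hg {y, y'}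
  rw [Lam_pair h.odd hne, h.mm_six hy hy' hne] at h1
  exact h1

theorem Lam_light (h : XVec B x Y) {y y' : Fin 13} (hy : y ∈ Y) (hy' : y' ∈ Y) (hne : y ≠ y') :
    Lam B {y, y'} = 1 := by
  rw [Lam_pair h.odd hne, h.mm_six hy hy' hne]

/-- T2x: `x` and any other point lie in total weight at most 1 -/
theorem T2x (h : XVec B x Y) {v : Fin 13} (hv : v ≠ x) (hg : ∀ q, q.card = 4 → g q ≤ ex B q) :
    LamW g {x, v} ≤ 1 := by
  have h1 := LamW_le hg {x, v}
  rw [Lam_pair h.odd hv.symm, h.mm_zero hv] at h1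
  exact h1

/-- T2h: a point of `Y` and a heavy point lie in total weight at most 7 -/
theorem T2h (h : XVec B x Y) {y z : Fin 13} (hy : y ∈ Y) (hz : z ≠ x) (hzY : z ∉ Y)
    (hg : ∀ q, q.card = 4 → g q ≤ ex B q) : LamW g {y, z} ≤ 7 := by
  have hne : y ≠ z := fun e => hzY (e ▸ hy)
  have h1 := LamW_le hg {y, z}
  have h2 := h.mm_le_two hy hz hzY
  rw [Lam_pair h.odd hne] at h1
  omega

/-- T5: weighted slack of `z + Y - y` with the lower bound of `mm y z` -/
theorem T5 (h : XVec B x Y) {y z : Fin 13} (hy : y ∈ Y) (hz : z ≠ x) (hzY : z ∉ Y)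
    (hg : ∀ q, q.card = 4 → g q ≤ ex B q) :
    ∑ q ∈ quads, phi (q ∩ insert z (Y.erase y)).card * g q + 3 * ((LamW g {y, z} + 1) / 3) ≤
      8 := by
  have h1 := slack_erase h hy hz hzY
  have h2 := phiW_le hg (le_refl (aa B (insert z (Y.erase y)) 0 +
    aa B (insert z (Y.erase y)) 3 + 3 * aa B (insert z (Y.erase y)) 4))
  have hne : y ≠ z := fun e => hzY (e ▸ hy)
  have h3 := mm_ge h.odd hg hne
  omega

/-- column cap: the lower bounds of `mm y z`, `y ∈ Y`, sum to at most 3 -/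
theorem col_le (h : XVec B x Y) {z : Fin 13} (hz : z ≠ x) (hzY : z ∉ Y)
    (hg : ∀ q, q.card = 4 → g q ≤ ex B q) : ∑ y ∈ Y, (LamW g {y, z} + 1) / 3 ≤ 3 := by
  refine le_of_le_of_eq (sum_le_sum fun y hy => ?_) (h.col hz hzY)
  have hne : y ≠ z := fun e => hzY (e ▸ hy)
  exact mm_ge h.odd hg hne

/-- row cap of a point of `Y` -/
theorem row_le (h : XVec B x Y) {y : Fin 13} (hy : y ∈ Y)
    (hg : ∀ q, q.card = 4 → g q ≤ ex B q) :
    ∑ z ∈ (insert x Y)ᶜ, (LamW g {y, z} + 1) / 3 ≤ 6 := by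
  refine le_of_le_of_eq (sum_le_sum fun z hz => mm_ge h.odd hg ?_) (h.row_six hy)
  rw [mem_compl, mem_insert, not_or] at hz
  exact fun e => hz.2 (e ▸ hy)

/-- row cap of a heavy point inside the heavy points -/
theorem row_heavy_le (h : XVec B x Y) {z : Fin 13} (hz : z ≠ x) (hzY : z ∉ Y)
    (hg : ∀ q, q.card = 4 → g q ≤ ex B q) :
    ∑ v ∈ ((insert x Y)ᶜ : Finset (Fin 13)).erase z, (LamW g {z, v} + 1) / 3 ≤ 5 := by
  exact le_of_le_of_eq (sum_le_sum fun v hv => mm_ge h.odd hg (ne_of_mem_erase hv).symm)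
    (h.row_heavy hz hzY)

/-- bad quads avoiding `x` and `Y`, or with three points in `x + Y`: at most one of all these
(`T1` for a set `E` of bad quads) -/
theorem T1E (h : XVec B x Y) {E : Finset (Finset (Fin 13))} (hE : ∀ q ∈ E, 1 ≤ ex B q)
    (hc : ∀ q ∈ E, q.card = 4) :
    (E.filter fun q => (q ∩ insert x Y).card = 0).card +
      (E.filter fun q => (q ∩ insert x Y).card = 3).card +
      3 * (E.filter fun q => (q ∩ insert x Y).card = 4).card ≤ 1 :=
  set_slack hE hc h.slack.le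

/-- `T1Y` for a set `E` of bad quads -/
theorem T1YE (h : XVec B x Y) {E : Finset (Finset (Fin 13))} (hE : ∀ q ∈ E, 1 ≤ ex B q)
    (hc : ∀ q ∈ E, q.card = 4) :
    (E.filter fun q => (q ∩ Y).card = 0).card + (E.filter fun q => (q ∩ Y).card = 3).card +
      3 * (E.filter fun q => (q ∩ Y).card = 4).card ≤ 1 :=
  set_slack hE hc (slack_Y h).le

/-- `T3` for a set `E` of bad quads -/
theorem T3E (h : XVec B x Y) {z : Fin 13} (hz : z ≠ x) (hzY : z ∉ Y)
    {E : Finset (Finset (Fin 13))} (hE : ∀ q ∈ E, 1 ≤ ex B q) (hc : ∀ q ∈ E, q.card = 4) :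
    (E.filter fun q => (q ∩ insert z Y).card = 0).card +
      (E.filter fun q => (q ∩ insert z Y).card = 3).card +
      3 * (E.filter fun q => (q ∩ insert z Y).card = 4).card ≤ 2 :=
  set_slack hE hc (h.slack_two hz hzY).le

end X

end Pool.Agent.Helper62.TY
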