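import Pool.Agent.Helper62.TY.XUKill

/-!
MP_8ee768_co, project TH-Y', stage X, machine for the survivors: soundness.

`xuA_sound`: `xuA A s κ = true` gives `RootDead (fun B => XVec B 12 Y8) A rootM`;
`xuA_cont`: and `κ s' = true` for some `s'`. `xu c e1 e2 s` is the form with the three link codes.
-/

set_option autoImplicit false
set_option exponentiation.threshold 100000

namespace Pool.Agent.Helper62.TY.XU

open Finset
open Pool.Agent.Helper63.SIMD
open Pool.Agent.Helper89.CV (OddCover ofMask)
open Pool.Agent.Helper97.CV Pool.Agent.Helper79.CV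
open Pool.Agent.Helper33.CV (ofMask_add_of_not add_two_pow_lt)
open Pool.Agent.Helper91.TY (testBit_fld testBit_mul_rep)
open Pool.Agent.Helper55.TY (Blk Dead Fits RootDead)
open Pool.Agent.Helper74.TY

/-! ### lists of masks as words -/

theorem testBit_bits (l : List ℕ) (j : ℕ) : (bits l).testBit j = true ↔ j ∈ l := by
  induction l with
  | nil =>
    show (0 : ℕ).testBit j = true ↔ _
    rw [Nat.zero_testBit]
    simp
  | cons m l ih =>
    show ((bits l) ||| 2 ^ m).testBit j = true ↔ _
    rw [Nat.testBit_or, Nat.testBit_two_pow, Bool.or_eq_true, ih, decide_eq_true_eq,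
      List.mem_cons]
    tauto

theorem land_one_eq {x k : ℕ} : ((x >>> k) &&& 1 = 1) ↔ x.testBit k = true := by
  rw [Nat.and_one_is_mod, Nat.shiftRight_eq_div_pow, Nat.testBit_eq_decide_div_mod_eq,
    decide_eq_true_eq]

theorem land_one_zero {x k : ℕ} : ((x >>> k) &&& 1 = 0) ↔ x.testBit k = false := by
  rw [Nat.and_one_is_mod, Nat.shiftRight_eq_div_pow, Nat.testBit_eq_decide_div_mod_eq,
    decide_eq_false_iff_not]
  omega

/-! ### the count word of a root -/

/-- the blocks of a code, recursively -/
def famR : List ℕ → ℕ → Finset Blk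
  | [], _ => ∅
  | m :: l, A => if A.testBit 0 = true then insert (ofMask m) (famR l (A >>> 1))
      else famR l (A >>> 1)

theorem mem_famR {l : List ℕ} {A : ℕ} {s : Blk} :
    s ∈ famR l A ↔ ∃ (i : ℕ) (h : i < l.length), A.testBit i = true ∧ ofMask (l[i]) = s := by
  induction l generalizing A with
  | nil =>
    unfold famR
    constructor
    · intro h
      exact absurd h (notMem_empty s)
    · rintro ⟨i, h, -⟩
      exact absurd h (Nat.not_lt_zero i)
  | cons m l ih =>
    have key : s ∈ famR (m :: l) A ↔ (A.testBit 0 = true ∧ s = ofMask m) ∨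
        s ∈ famR l (A >>> 1) := by
      show s ∈ (if A.testBit 0 = true then insert (ofMask m) (famR l (A >>> 1))
        else famR l (A >>> 1)) ↔ _
      by_cases h : A.testBit 0 = true
      · rw [if_pos h, mem_insert]
        tauto
      · rw [if_neg h]
        tauto
    rw [key, ih]
    constructor
    · rintro (⟨h1, h2⟩ | ⟨i, h, h1, h2⟩)
      · exact ⟨0, Nat.succ_pos _, h1, h2.symm⟩
      · refine ⟨i + 1, Nat.succ_lt_succ h, ?_, h2⟩
        rw [Nat.testBit_shiftRight, Nat.add_comm] at h1
        exact h1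
    · rintro ⟨i, h, h1, h2⟩
      cases i with
      | zero => exact Or.inl ⟨h1, h2.symm⟩
      | succ i =>
        refine Or.inr ⟨i, Nat.lt_of_succ_lt_succ h, ?_, h2⟩
        rw [Nat.testBit_shiftRight, Nat.add_comm]
        exact h1

theorem fam_eq_famR (A : ℕ) : fam 13 5 A = famR (L 13 5) A := by
  ext s
  rw [mem_fam, mem_famR]

theorem bld_cons (m : ℕ) (l : List ℕ) (A acc : ℕ) : bld (m :: l) A acc =
    cond (Nat.beq (A &&& 1) 0) (bld l (A >>> 1) acc) (bld l (A >>> 1) (acc + pat m)) := rfl

theorem bld_eq : ∀ (l : List ℕ) (A : ℕ) (I : Finset Blk),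
    (∀ m ∈ l, m < 8192 ∧ (ofMask m).card = 5 ∧ ofMask m ∉ I) → l.Nodup →
    bld l A (pk 8 8192 (cf I)) = pk 8 8192 (cf (I ∪ famR l A))
  | [], A, I, _, _ => by
    show pk 8 8192 (cf I) = pk 8 8192 (cf (I ∪ ∅))
    rw [union_empty]
  | m :: l, A, I, h, hn => by
    rw [bld_cons]
    have hm := h m List.mem_cons_self
    have h0 : (A &&& 1 = 0) ↔ A.testBit 0 = false := by
      have := land_one_zero (x := A) (k := 0)
      rwa [Nat.shiftRight_zero] at this
    rw [List.nodup_cons] at hn
    by_cases hb : A.testBit 0 = true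
    · have h1 : Nat.beq (A &&& 1) 0 = false := by
        rw [← Bool.not_eq_true]
        intro h2
        have h3 := h0.1 (Nat.eq_of_beq_eq_true h2)
        rw [hb] at h3
        exact Bool.noConfusion h3
      rw [h1, cond_false]
      have h4 := add_pat hm.2.2 hm.2.1
      rw [mk_ofMask (by norm_num; exact hm.1)] at h4
      rw [h4, bld_eq l (A >>> 1) (insert (ofMask m) I) ?_ hn.2]
      · have e : famR (m :: l) A = insert (ofMask m) (famR l (A >>> 1)) := by
          show (if A.testBit 0 = true then insert (ofMask m) (famR l (A >>> 1))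
            else famR l (A >>> 1)) = _
          rw [if_pos hb]
        rw [e, insert_union, union_insert]
      · intro m' hm'
        have h5 := h m' (List.mem_cons_of_mem _ hm')
        refine ⟨h5.1, h5.2.1, ?_⟩
        rw [mem_insert, not_or]
        refine ⟨fun h6 => ?_, h5.2.2⟩
        have h7 := ofMask_injOn (by norm_num; exact h5.1) (by norm_num; exact hm.1) h6
        exact hn.1 (h7 ▸ hm')
    · have h1 : Nat.beq (A &&& 1) 0 = true := by
        rw [Bool.not_eq_true] at hb
        rw [h0.2 hb]
        rfl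
      rw [h1, cond_true]
      have e : famR (m :: l) A = famR l (A >>> 1) := by
        show (if A.testBit 0 = true then insert (ofMask m) (famR l (A >>> 1))
          else famR l (A >>> 1)) = _
        rw [if_neg hb]
      rw [e]
      exact bld_eq l (A >>> 1) I (fun m' hm' => h m' (List.mem_cons_of_mem _ hm')) hn.2

theorem pk_cf_empty : pk 8 8192 (cf ∅) = 0 := by
  unfold pk
  exact sum_eq_zero fun r _ => by rw [cf_empty, zero_mul]

theorem bld_root (A : ℕ) : bld (L 13 5) A 0 = pk 8 8192 (cf (fam 13 5 A)) := by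
  have h := bld_eq (L 13 5) A ∅ (fun m hm => ?_) (nodup_L 13 5)
  · rw [pk_cf_empty, empty_union, ← fam_eq_famR] at h
    exact h
  · have h1 := (mem_L (le_refl 13)).1 hm
    exact ⟨h1.1, h1.2, notMem_empty _⟩

/-! ### states -/

/-- the words of a state -/
structure St (I O : Finset Blk) (C F : ℕ) : Prop where
  c5 : ∀ b ∈ I, b.card = 5
  hC : C = pk 8 8192 (cf I)
  hF : ∀ b : Blk, b.card = 5 → (F.testBit (mk b) = true ↔ b ∉ I ∧ b ∉ O)

theorem st_out {I O : Finset Blk} {C F : ℕ} (h : St I O C F) {b : Blk}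
    (hb : F.testBit (mk b) = true) : St I (insert b O) C (F ^^^ 2 ^ mk b) := by
  refine ⟨h.c5, h.hC, fun c hc => ?_⟩
  rw [Nat.testBit_xor, Nat.testBit_two_pow]
  by_cases hcb : c = b
  · subst hcb
    rw [hb, decide_eq_true rfl, Bool.xor_self]
    constructor
    · intro h1
      exact Bool.noConfusion h1
    · intro h1
      exact absurd (mem_insert_self c O) h1.2
  · have h1 : ¬ mk b = mk c := fun h2 => hcb (mk_injective h2).symm
    rw [decide_eq_false h1, Bool.xor_false, h.hF c hc, mem_insert]
    exact ⟨fun h2 => ⟨h2.1, fun h3 => h3.elim hcb h2.2⟩, fun h2 => ⟨h2.1, fun h3 =>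
      h2.2 (Or.inr h3)⟩⟩

theorem st_inn {I O : Finset Blk} {C F : ℕ} (h : St I O C F) {b : Blk} (h5 : b.card = 5)
    (hb : F.testBit (mk b) = true) :
    St (insert b I) O (C + pat (mk b)) (F ^^^ 2 ^ mk b) := by
  have hbI := ((h.hF b h5).1 hb).1
  refine ⟨?_, ?_, fun c hc => ?_⟩
  · intro c hc
    rcases mem_insert.1 hc with rfl | hc
    · exact h5
    · exact h.c5 c hc
  · rw [h.hC, add_pat hbI h5]
  · rw [Nat.testBit_xor, Nat.testBit_two_pow]
    by_cases hcb : c = b
    · subst hcb
      rw [hb, decide_eq_true rfl, Bool.xor_self]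
      constructor
      · intro h1
        exact Bool.noConfusion h1
      · intro h1
        exact absurd (mem_insert_self c I) h1.1
    · have h1 : ¬ mk b = mk c := fun h2 => hcb (mk_injective h2).symm
      rw [decide_eq_false h1, Bool.xor_false, h.hF c hc, mem_insert]
      exact ⟨fun h2 => ⟨fun h3 => h3.elim hcb h2.1, h2.2⟩, fun h2 => ⟨fun h3 =>
        h2.1 (Or.inr h3), h2.2⟩⟩

/-- the property of the covers -/
def HX (B : Finset Blk) : Prop := XVec B 12 Y8

/-- soundness of a machine -/
def NdOK (nd : ℕ → ℕ → ℕ → (ℕ → Bool) → Bool) : Prop :=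
  ∀ C F s κ, nd C F s κ = true → (∀ I O, St I O C F → Dead HX I O) ∧ ∃ s', κ s' = true

theorem kids_succ (nd : ℕ → ℕ → ℕ → (ℕ → Bool) → Bool) (q v C F s : ℕ) (κ : ℕ → Bool) :
    kids nd q (v + 1) C F s κ =
      cond (Nat.beq ((q >>> v) &&& 1) 1) (kids nd q v C F s κ)
      (cond (Nat.beq ((F >>> (q + 2 ^ v)) &&& 1) 0) (kids nd q v C F s κ)
        (cond (killX (C + pat (q + 2 ^ v)))
          (kids nd q v C (F ^^^ 2 ^ (q + 2 ^ v)) s κ)
          (nd (C + pat (q + 2 ^ v)) (F ^^^ 2 ^ (q + 2 ^ v)) s
            fun s' => kids nd q v C (F ^^^ 2 ^ (q + 2 ^ v)) s' κ))) := rfl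

theorem kids_sound {nd : ℕ → ℕ → ℕ → (ℕ → Bool) → Bool} (hnd : NdOK nd) {q : ℕ}
    (hq : q < 8192) (hq4 : (ofMask q).card = 4) : ∀ n ≤ 13, ∀ C F s κ,
    kids nd q n C F s κ = true →
      (∀ I O, St I O C F → ∀ B, HX B → I ⊆ B → Disjoint O B →
        (∃ v : Fin 13, v.val < n ∧ v ∉ ofMask q ∧ insert v (ofMask q) ∈ B ∧
          insert v (ofMask q) ∉ I) → False) ∧ ∃ s', κ s' = true := by
  intro n
  induction n with
  | zero =>
    intro _ C F s κ h
    refine ⟨fun I O _ B _ _ _ hv => ?_, s, h⟩
    obtain ⟨v, hv, -⟩ := hv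
    exact absurd hv (Nat.not_lt_zero _)
  | succ n ih =>
    intro hn C F s κ h
    rw [kids_succ] at h
    by_cases hqn : q.testBit n = true
    · have h1 : Nat.beq ((q >>> n) &&& 1) 1 = true := by
        rw [land_one_eq.2 hqn]
        rfl
      rw [h1, cond_true] at h
      obtain ⟨g1, g2⟩ := ih (by omega) C F s κ h
      refine ⟨fun I O hSt B hB hI hO hv => ?_, g2⟩
      obtain ⟨v, hv1, hv2, hv3, hv4⟩ := hv
      rcases Nat.lt_succ_iff_lt_or_eq.1 hv1 with hlt | heq
      · exact g1 I O hSt B hB hI hO ⟨v, hlt, hv2, hv3, hv4⟩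
      · refine hv2 (mem_ofMask.2 ?_)
        rw [heq]
        exact hqn
    · rw [Bool.not_eq_true] at hqn
      have h1 : Nat.beq ((q >>> n) &&& 1) 1 = false := by
        rw [land_one_zero.2 hqn]
        rfl
      rw [h1, cond_false] at h
      have hb := ofMask_add_of_not (m := q) ⟨n, by omega⟩ hqn
      simp only at hb
      have hlt : q + 2 ^ n < 2 ^ 13 := add_two_pow_lt (by omega) hq hqn
      have hmk : mk (insert (⟨n, by omega⟩ : Fin 13) (ofMask q)) = q + 2 ^ n := by
        rw [← hb, mk_ofMask hlt]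
      have hnq : (⟨n, by omega⟩ : Fin 13) ∉ ofMask q := by
        rw [mem_ofMask]
        simp only
        rw [hqn]
        exact Bool.false_ne_true
      have hb5 : (insert (⟨n, by omega⟩ : Fin 13) (ofMask q)).card = 5 := by
        rw [card_insert_of_notMem hnq, hq4]
      generalize hbb : insert (⟨n, by omega⟩ : Fin 13) (ofMask q) = b at *
      rw [← hmk] at h
      by_cases hFb : F.testBit (mk b) = true
      · have h2 : Nat.beq ((F >>> mk b) &&& 1) 0 = false := by
          rw [land_one_eq.2 hFb]
          rfl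
        rw [h2, cond_false] at h
        have h3 : (∃ s1, kids nd q n C (F ^^^ 2 ^ mk b) s1 κ = true) ∧
            ∀ I O, St I O C F → ∀ B, HX B → I ⊆ B → Disjoint O B → b ∈ B → False := by
          by_cases hk : killX (C + pat (mk b)) = true
          · rw [hk, cond_true] at h
            refine ⟨⟨s, h⟩, fun I O hSt B hB hI _ hbB => ?_⟩
            have h4 := killX_sound (B := B) (I := insert b I) hB (insert_subset hbB hI)
            rw [← (st_inn hSt hb5 hFb).hC, hk] at h4
            exact Bool.noConfusion h4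
          · rw [Bool.not_eq_true] at hk
            rw [hk, cond_false] at h
            obtain ⟨h4, h5⟩ := hnd _ _ _ _ h
            refine ⟨h5, fun I O hSt B hB hI hO hbB => ?_⟩
            exact h4 _ _ (st_inn hSt hb5 hFb) B hB (insert_subset hbB hI) hO
        obtain ⟨⟨s1, h3⟩, h4⟩ := h3
        obtain ⟨g1, g2⟩ := ih (by omega) C _ s1 κ h3
        refine ⟨fun I O hSt B hB hI hO hv => ?_, g2⟩
        by_cases hbB : b ∈ B
        · exact h4 I O hSt B hB hI hO hbB
        · obtain ⟨v, hv1, hv2, hv3, hv4⟩ := hv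
          rcases Nat.lt_succ_iff_lt_or_eq.1 hv1 with hlt' | heq
          · exact g1 I (insert b O) (st_out hSt hFb) B hB hI (disjoint_insert_left.2 ⟨hbB, hO⟩)
              ⟨v, hlt', hv2, hv3, hv4⟩
          · have hvn : v = ⟨n, by omega⟩ := Fin.ext heq
            rw [hvn, hbb] at hv3
            exact hbB hv3
      · have h2 : Nat.beq ((F >>> mk b) &&& 1) 0 = true := by
          rw [Bool.not_eq_true] at hFb
          rw [land_one_zero.2 hFb]
          rfl
        rw [h2, cond_true] at h
        obtain ⟨g1, g2⟩ := ih (by omega) C F s κ h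
        refine ⟨fun I O hSt B hB hI hO hv => ?_, g2⟩
        obtain ⟨v, hv1, hv2, hv3, hv4⟩ := hv
        rcases Nat.lt_succ_iff_lt_or_eq.1 hv1 with hlt' | heq
        · exact g1 I O hSt B hB hI hO ⟨v, hlt', hv2, hv3, hv4⟩
        · have hvn : v = ⟨n, by omega⟩ := Fin.ext heq
          rw [hvn, hbb] at hv3 hv4
          refine hFb ((hSt.hF b hb5).2 ⟨hv4, fun hbO => ?_⟩)
          exact disjoint_left.1 hO hbO hv3

theorem node_succ (n C F s : ℕ) (κ : ℕ → Bool) : node (n + 1) C F s κ =
    cond (Nat.beq ((QW >>> (s % 8192)) &&& 1) 1)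
        (cond (Nat.beq ((C >>> (8 * (s % 8192))) &&& 1) 0)
          (kids (node n) (s % 8192) 13 C F (s >>> 13) κ) false) false := rfl

theorem node_sound (n : ℕ) : NdOK (node n) := by
  induction n with
  | zero =>
    intro C F s κ h
    exact Bool.noConfusion h
  | succ n ih =>
    intro C F s κ h
    rw [node_succ] at h
    have hq : s % 8192 < 8192 := Nat.mod_lt _ (by norm_num)
    generalize s % 8192 = q at h hq
    cases h1 : Nat.beq ((QW >>> q) &&& 1) 1 with
    | false =>
      rw [h1, cond_false] at h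
      exact Bool.noConfusion h
    | true =>
      rw [h1, cond_true] at h
      have h2 := land_one_eq.1 (Nat.eq_of_beq_eq_true h1)
      have hq4 : (ofMask q).card = 4 := ((mem_L (le_refl 13)).1 ((testBit_bits _ _).1 h2)).2
      cases h3 : Nat.beq ((C >>> (8 * q)) &&& 1) 0 with
      | false =>
        rw [h3, cond_false] at h
        exact Bool.noConfusion h
      | true =>
        rw [h3, cond_true] at h
        obtain ⟨g1, g2⟩ := kids_sound ih hq hq4 13 le_rfl C F _ κ h
        refine ⟨fun I O hSt B hB hI hO => ?_, g2⟩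
        have h4 := land_one_zero.1 (Nat.eq_of_beq_eq_true h3)
        have h5 : (cf I q).testBit 0 = false := by
          have h6 := fld_pk (W := 8) (N := 8192) (a := cf I)
            (fun i _ => lt_of_le_of_lt (cf_le hSt.c5 i) (by norm_num)) hq
          rw [← h6, testBit_fld, ← hSt.hC, Nat.add_zero, h4, Bool.and_false]
        have h6 : cf I q = cnt I (ofMask q) := by
          unfold cf
          rw [if_pos hq4]
        rw [h6, Nat.testBit_zero, decide_eq_false_iff_not] at h5
        have h7 : Odd (cnt B (ofMask q)) := hB.odd.2 _ hq4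
        have h8 : ∃ c ∈ B, ofMask q ⊆ c ∧ c ∉ I := by
          by_contra h9
          have h10 : B.filter (fun b => ofMask q ⊆ b) = I.filter (fun b => ofMask q ⊆ b) := by
            ext c
            simp only [mem_filter]
            constructor
            · rintro ⟨h11, h12⟩
              refine ⟨?_, h12⟩
              by_contra h13
              exact h9 ⟨c, h11, h12, h13⟩
            · rintro ⟨h11, h12⟩
              exact ⟨hI h11, h12⟩
          unfold cnt at h5 h7
          rw [h10] at h7
          obtain ⟨t, ht⟩ := h7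
          omega
        obtain ⟨c, hc1, hc2, hc3⟩ := h8
        have h9 : (c \ ofMask q).card = 1 := by
          rw [card_sdiff_of_subset hc2, hB.odd.1 c hc1, hq4]
        obtain ⟨v, hv⟩ := card_eq_one.1 h9
        have hvc : v ∈ c \ ofMask q := by
          rw [hv]
          exact mem_singleton_self v
        rw [mem_sdiff] at hvc
        have h10 : insert v (ofMask q) = c := by
          rw [insert_eq, ← hv, sdiff_union_of_subset hc2]
        exact g1 I O hSt B hB hI hO ⟨v, v.isLt, hvc.2, by rw [h10]; exact hc1, by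
          rw [h10]; exact hc3⟩

/-! ### roots -/

theorem take_L : (L 13 5).take 252 = L 10 5 := by decide +kernel

theorem rk_lt_iff {b : Blk} (hb : b.card = 5) : rk 13 5 b < 252 ↔ mk b < 1024 := by
  have hS : Sub 13 5 b := ⟨mk_lt b, hb⟩
  have h1 := rk_lt (le_refl 13) hS
  have h2 := getElem_rk (le_refl 13) hS
  constructor
  · intro h
    have h3 : mk b ∈ (L 13 5).take 252 := by
      rw [List.mem_take_iff_getElem]
      exact ⟨rk 13 5 b, by omega, h2⟩
    rw [take_L] at h3
    exact lt_of_mem_L h3
  · intro h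
    have h3 : mk b ∈ L 10 5 := (mem_L (by norm_num)).2 ⟨h, by rw [ofMask_mk]; exact hb⟩
    rw [← take_L, List.mem_take_iff_getElem] at h3
    obtain ⟨i, hi, h4⟩ := h3
    have h5 : i = rk 13 5 b := by
      have h6 : i < (L 13 5).length := by omega
      exact (List.Nodup.getElem_inj_iff (nodup_L 13 5)).1 (h4.trans h2.symm)
    omega

theorem testBit_rootM (i : ℕ) : rootM.testBit i = (decide (252 ≤ i) && decide (i < 1287)) := by
  unfold rootM
  rw [Nat.testBit_shiftLeft, Nat.testBit_two_pow_sub_one]
  by_cases h1 : 252 ≤ i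
  · rw [decide_eq_true h1, Bool.true_and, Bool.true_and]
    by_cases h2 : i < 1287
    · rw [decide_eq_true h2, decide_eq_true (by omega : i - 252 < 1035)]
    · rw [decide_eq_false h2, decide_eq_false (by omega : ¬ i - 252 < 1035)]
  · rw [decide_eq_false h1, Bool.false_and, Bool.false_and]

/-- the state of a root -/
theorem st_root {B : Finset Blk} {A : ℕ} (h : Fits B A rootM) :
    St (fam 13 5 A) (fam 13 5 (rootM ^^^ A)) (bld (L 13 5) A 0) FW := by
  refine ⟨fun b hb => (sub_of_mem_fam le_rfl hb).2, bld_root A, fun b hb => ?_⟩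
  have hS : Sub 13 5 b := ⟨mk_lt b, hb⟩
  have h1 := rk_lt (le_refl 13) hS
  have hlen : (L 13 5).length = 1287 := by
    rw [length_L]
    decide
  rw [hlen] at h1
  unfold FW
  rw [testBit_bits, mem_L (by norm_num), ofMask_mk, mem_fam_iff le_rfl, mem_fam_iff le_rfl,
    Nat.testBit_xor, testBit_rootM, decide_eq_true h1, Bool.and_true]
  have hA : A.testBit (rk 13 5 b) = true → 252 ≤ rk 13 5 b := by
    intro h2
    unfold Fits at h
    rw [← h, Nat.testBit_and, testBit_rootM, Bool.and_eq_true, Bool.and_eq_true,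
      decide_eq_true_eq, decide_eq_true_eq] at h2
    exact h2.2.1
  have h3 := rk_lt_iff hb
  constructor
  · rintro ⟨h4, -⟩
    have h5 := h3.2 h4
    have h6 : A.testBit (rk 13 5 b) = false := by
      rw [← Bool.not_eq_true]
      intro h7
      have := hA h7
      omega
    rw [h6, decide_eq_false (by omega)]
    simp
  · rintro ⟨h4, h5⟩
    refine ⟨h3.1 ?_, hb⟩
    by_contra h6
    rw [decide_eq_true (by omega : 252 ≤ rk 13 5 b)] at h5
    have h7 : A.testBit (rk 13 5 b) = false := by
      rw [← Bool.not_eq_true]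
      exact fun h8 => h4 ⟨hS, h8⟩
    rw [h7] at h5
    exact h5 ⟨hS, rfl⟩

/-- SOUNDNESS -/
theorem xuA_sound {A s : ℕ} {κ : ℕ → Bool} (h : xuA A s κ = true) :
    RootDead (fun B => XVec B 12 Y8) A rootM := by
  intro B hB hF
  have hSt := st_root hF
  have h' : cond (killX (bld (L 13 5) A 0)) (κ s) (node 100 (bld (L 13 5) A 0) FW s κ) = true := h
  have h1 := killX_sound (B := B) (I := fam 13 5 A) hB hF.subset
  rw [← bld_root] at h1
  rw [h1, cond_false] at h'
  exact (node_sound 100 _ _ _ _ h').1 _ _ hSt B hB hF.subset hF.disjoint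

theorem xuA_cont {A s : ℕ} {κ : ℕ → Bool} (h : xuA A s κ = true) : ∃ s', κ s' = true := by
  have h' : cond (killX (bld (L 13 5) A 0)) (κ s) (node 100 (bld (L 13 5) A 0) FW s κ) = true := h
  cases h1 : killX (bld (L 13 5) A 0) with
  | true =>
    rw [h1, cond_true] at h'
    exact ⟨s, h'⟩
  | false =>
    rw [h1, cond_false] at h'
    exact (node_sound 100 _ _ _ _ h').2

/-- the check of a survivor with the certificate `s` (13 bits per inner node, little end first;
children of a quad in decreasing order of the added point) -/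
def xu (c e1 e2 s : ℕ) : Bool := xuA (rootA c e1 e2) s fun _ => true

theorem xu_sound {c e1 e2 s : ℕ} (h : xu c e1 e2 s = true) :
    RootDead (fun B => XVec B 12 Y8) (rootA c e1 e2) rootM := xuA_sound h

end Pool.Agent.Helper62.TY.XU
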