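import Pool.Agent.Helper79.CV.Colex
import Pool.Agent.Helper63.SIMD.Pack

/-!
MP_8ee768_co, project TH-Y', stage X: the scalar machine for the survivors, program.

Count word `C`: field `r` (8 bits, `r < 8192` the mask of a set of points) is the number of
blocks of the state through the set, if it is a quad, and 0 otherwise. Free word `F`: bit `m` says
that the block with mask `m` is undecided. The stream `s` gives 13 bits (mask of a quad) for every
inner node. Frame: `x = 12`, `Y = {8, 9, 10, 11}`, heavy points `0, .., 7`.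
-/

set_option autoImplicit false

namespace Pool.Agent.Helper62.TY.XU

open Pool.Agent.Helper63.SIMD
open Pool.Agent.Helper79.CV (L)

/-- contribution of the block with mask `m` to the count word, points `< n` -/
def patN (m n : ℕ) : ℕ :=
  @Nat.rec (fun _ => ℕ) 0 (fun v ih => Nat.add ih
    (Nat.shiftLeft (Nat.land (Nat.shiftRight m v) 1) (Nat.mul 8 (Nat.sub m (Nat.pow 2 v))))) n

/-- contribution of the block with mask `m` to the count word -/
def pat (m : ℕ) : ℕ := patN m 13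

/-- fields (value 255) with the point `u` -/
def PT (u : ℕ) : ℕ :=
  Nat.mul (Nat.shiftLeft (Nat.sub (Nat.pow 2 (Nat.mul 8 (Nat.pow 2 u))) 1) (Nat.mul 8 (Nat.pow 2 u)))
    (rep (Nat.mul 16 (Nat.pow 2 u)) (Nat.pow 2 (Nat.sub 12 u)))

/-- fields with both points -/
def PP (u v : ℕ) : ℕ := Nat.land (PT u) (PT v)

/-- the excess word of a count word -/
def EW (C : ℕ) : ℕ := Nat.land (Nat.shiftRight C 1) (Nat.mul 127 (rep 8 8192))

/-- sum of the lower bounds of the pair excesses over a list of pairs -/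
def tsum (E : ℕ) (l : List ℕ) : ℕ :=
  @List.rec ℕ (fun _ => ℕ) 0
    (fun m _ ih => Nat.add ih (Nat.div (Nat.succ (Nat.mod (Nat.land E m) 255)) 3)) l

/-- tests: cap, masks of the pairs -/
def ptests : List (ℕ × List ℕ) :=
  [(0, [PP 8 9]),
   (6, [PP 0 8, PP 1 8, PP 2 8, PP 3 8, PP 4 8, PP 5 8, PP 6 8, PP 7 8]),
   (6, [PP 0 9, PP 1 9, PP 2 9, PP 3 9, PP 4 9, PP 5 9, PP 6 9, PP 7 9]),
   (3, [PP 0 8, PP 0 9, PP 0 10, PP 0 11]),
   (3, [PP 1 8, PP 1 9, PP 1 10, PP 1 11]),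
   (3, [PP 2 8, PP 2 9, PP 2 10, PP 2 11]),
   (3, [PP 3 8, PP 3 9, PP 3 10, PP 3 11]),
   (3, [PP 4 8, PP 4 9, PP 4 10, PP 4 11]),
   (3, [PP 5 8, PP 5 9, PP 5 10, PP 5 11]),
   (3, [PP 6 8, PP 6 9, PP 6 10, PP 6 11]),
   (3, [PP 7 8, PP 7 9, PP 7 10, PP 7 11]),
   (5, [PP 0 1, PP 0 2, PP 0 3, PP 0 4, PP 0 5, PP 0 6, PP 0 7]),
   (5, [PP 0 1, PP 1 2, PP 1 3, PP 1 4, PP 1 5, PP 1 6, PP 1 7]),
   (5, [PP 0 2, PP 1 2, PP 2 3, PP 2 4, PP 2 5, PP 2 6, PP 2 7]),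
   (5, [PP 0 3, PP 1 3, PP 2 3, PP 3 4, PP 3 5, PP 3 6, PP 3 7]),
   (5, [PP 0 4, PP 1 4, PP 2 4, PP 3 4, PP 4 5, PP 4 6, PP 4 7]),
   (5, [PP 0 5, PP 1 5, PP 2 5, PP 3 5, PP 4 5, PP 5 6, PP 5 7]),
   (5, [PP 0 6, PP 1 6, PP 2 6, PP 3 6, PP 4 6, PP 5 6, PP 6 7]),
   (5, [PP 0 7, PP 1 7, PP 2 7, PP 3 7, PP 4 7, PP 5 7, PP 6 7])]

/-- one of the tests is violated -/
def pkill (E : ℕ) (l : List (ℕ × List ℕ)) : Bool :=
  @List.rec (ℕ × List ℕ) (fun _ => Bool) false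
    (fun p _ ih => cond (Nat.ble (Nat.succ p.1) (tsum E p.2)) true ih) l

/-- the kill test of a count word -/
def killX (C : ℕ) : Bool := pkill (EW C) ptests

/-- the children of a node -/
def kids (nd : ℕ → ℕ → ℕ → (ℕ → Bool) → Bool) (q : ℕ) (n : ℕ) :
    ℕ → ℕ → ℕ → (ℕ → Bool) → Bool :=
  @Nat.rec (fun _ => ℕ → ℕ → ℕ → (ℕ → Bool) → Bool) (fun _ _ s κ => κ s)
    (fun v ih C F s κ => cond (Nat.beq (Nat.land (Nat.shiftRight q v) 1) 1) (ih C F s κ)
      (cond (Nat.beq (Nat.land (Nat.shiftRight F (Nat.add q (Nat.pow 2 v))) 1) 0) (ih C F s κ)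
        (cond (killX (Nat.add C (pat (Nat.add q (Nat.pow 2 v)))))
          (ih C (Nat.xor F (Nat.pow 2 (Nat.add q (Nat.pow 2 v)))) s κ)
          (nd (Nat.add C (pat (Nat.add q (Nat.pow 2 v))))
            (Nat.xor F (Nat.pow 2 (Nat.add q (Nat.pow 2 v)))) s
            fun s' => ih C (Nat.xor F (Nat.pow 2 (Nat.add q (Nat.pow 2 v)))) s' κ)))) n

/-- number with the bits of the list -/
def bits (l : List ℕ) : ℕ :=
  @List.rec ℕ (fun _ => ℕ) 0 (fun m _ ih => Nat.lor ih (Nat.pow 2 m)) l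

/-- masks of the quads -/
def QW : ℕ := bits (L 13 4)

/-- masks of the free blocks of a root -/
def FW : ℕ := bits (L 10 5)

/-- the machine -/
def node (n : ℕ) : ℕ → ℕ → ℕ → (ℕ → Bool) → Bool :=
  @Nat.rec (fun _ => ℕ → ℕ → ℕ → (ℕ → Bool) → Bool) (fun _ _ _ _ => false)
    (fun _ nd C F s κ =>
      cond (Nat.beq (Nat.land (Nat.shiftRight QW (Nat.mod s 8192)) 1) 1)
        (cond (Nat.beq (Nat.land (Nat.shiftRight C (Nat.mul 8 (Nat.mod s 8192))) 1) 0)
          (kids nd (Nat.mod s 8192) 13 C F (Nat.shiftRight s 13) κ) false) false) n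

/-- the count word of a code of blocks -/
def bld (l : List ℕ) : ℕ → ℕ → ℕ :=
  @List.rec ℕ (fun _ => ℕ → ℕ → ℕ) (fun _ acc => acc)
    (fun m _ ih A acc => cond (Nat.beq (Nat.land A 1) 0) (ih (Nat.shiftRight A 1) acc)
      (ih (Nat.shiftRight A 1) (Nat.add acc (pat m)))) l

/-- the check of a root: `A` is the code of the blocks of the root, which meet `{10, 11, 12}` -/
def xuA (A s : ℕ) (κ : ℕ → Bool) : Bool :=
  (fun C => cond (killX C) (κ s) (node 100 C FW s κ)) (bld (L 13 5) A 0)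

end Pool.Agent.Helper62.TY.XU
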