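import Pool.Agent.Helper62.TY.XUPat
import Pool.Agent.Helper62.TY.XFacts

/-!
MP_8ee768_co, project TH-Y', stage X, machine for the survivors: soundness of the kill test.
-/

set_option autoImplicit false
set_option exponentiation.threshold 100000

namespace Pool.Agent.Helper62.TY.XU

open Finset
open Pool.Agent.Helper63.SIMD
open Pool.Agent.Helper89.CV (OddCover ofMask)
open Pool.Agent.Helper97.CV Pool.Agent.Helper79.CV
open Pool.Agent.Helper91.TY (testBit_fld testBit_mul_rep)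
open Pool.Agent.Helper55.TY (Blk ex_mono)
open Pool.Agent.Helper74.TY

theorem fld_ext8 {x y i : ℕ} (h : ∀ j < 8, x.testBit (8 * i + j) = y.testBit (8 * i + j)) :
    fld 8 x i = fld 8 y i := by
  refine Nat.eq_of_testBit_eq fun j => ?_
  rw [testBit_fld, testBit_fld]
  by_cases hj : j < 8
  · rw [h j hj]
  · rw [decide_eq_false hj, Bool.false_and, Bool.false_and]

theorem fld_land8 (x y i : ℕ) : fld 8 (x &&& y) i = fld 8 x i &&& fld 8 y i := by
  refine Nat.eq_of_testBit_eq fun j => ?_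
  rw [Nat.testBit_and, testBit_fld, testBit_fld, testBit_fld, Nat.testBit_and]
  cases decide (j < 8) <;> simp

/-- fields of the excess word -/
theorem fld_EW {a : ℕ → ℕ} (ha : ∀ i < 8192, a i < 2 ^ 8) {r : ℕ} (hr : r < 8192) :
    fld 8 (EW (pk 8 8192 a)) r = a r / 2 := by
  have h1 := fld_pk ha hr
  have h2 := ha r hr
  refine Nat.eq_of_testBit_eq fun j => ?_
  rw [testBit_fld]
  have e : EW (pk 8 8192 a) = (pk 8 8192 a >>> 1) &&& (127 * rep 8 8192) := rfl
  rw [e, Nat.testBit_and, Nat.testBit_shiftRight,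
    testBit_mul_rep (by norm_num) (by norm_num : (127 : ℕ) < 2 ^ 8), Nat.testBit_div_two,
    Nat.mul_add_mod]
  by_cases hj : j < 8
  · rw [decide_eq_true hj, Nat.mod_eq_of_lt hj, decide_eq_true (by omega : 8 * r + j < 8 * 8192),
      Bool.true_and, Bool.true_and]
    have h127 : (127 : ℕ) = 2 ^ 7 - 1 := by norm_num
    rw [h127, Nat.testBit_two_pow_sub_one]
    by_cases hj7 : j < 7
    · rw [decide_eq_true hj7, Bool.and_true, ← h1, testBit_fld,
        decide_eq_true (by omega : j + 1 < 8), Bool.true_and]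
      congr 1
      omega
    · rw [decide_eq_false hj7, Bool.and_false, Nat.testBit_lt_two_pow]
      exact lt_of_lt_of_le h2 (Nat.pow_le_pow_right (by norm_num) (by omega))
  · rw [decide_eq_false hj, Bool.false_and, Nat.testBit_lt_two_pow]
    exact lt_of_lt_of_le h2 (Nat.pow_le_pow_right (by norm_num) (by omega))

/-- bits of the mask of a point -/
theorem testBit_PT {u k : ℕ} (h : (PT u).testBit k = true) :
    (k / 8).testBit u = true := by
  have hp := Nat.two_pow_pos u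
  have e : PT u = ((2 ^ (8 * 2 ^ u) - 1) <<< (8 * 2 ^ u)) * rep (16 * 2 ^ u) (2 ^ (12 - u)) := rfl
  have hlt : (2 ^ (8 * 2 ^ u) - 1) <<< (8 * 2 ^ u) < 2 ^ (16 * 2 ^ u) := by
    rw [Nat.shiftLeft_eq, show 16 * 2 ^ u = 8 * 2 ^ u + 8 * 2 ^ u by ring, pow_add]
    exact Nat.mul_lt_mul_of_pos_right
      (Nat.sub_lt (Nat.two_pow_pos _) Nat.one_pos) (Nat.two_pow_pos _)
  rw [e, testBit_mul_rep (by positivity) hlt, Bool.and_eq_true, Nat.testBit_shiftLeft,
    Bool.and_eq_true, decide_eq_true_eq, decide_eq_true_eq] at h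
  obtain ⟨-, h1, -⟩ := h
  have hw : 16 * 2 ^ u = 8 * 2 ^ u * 2 := by ring
  rw [hw] at h1
  have h2 : k % (8 * 2 ^ u * 2) < 8 * 2 ^ u * 2 := Nat.mod_lt _ (by positivity)
  have h3 := Nat.mod_mul_right_div_self k (8 * 2 ^ u) 2
  have h4 : k % (8 * 2 ^ u * 2) / (8 * 2 ^ u) = 1 := by
    rw [Nat.div_eq_iff (by positivity)]
    omega
  rw [Nat.testBit_eq_decide_div_mod_eq, decide_eq_true_eq, Nat.div_div_eq_div_mul, ← h3, h4]

theorem fld_PP {u v r : ℕ}
    (h : ¬ (r.testBit u = true ∧ r.testBit v = true)) : fld 8 (PP u v) r = 0 := by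
  have e : PP u v = PT u &&& PT v := rfl
  refine Nat.eq_of_testBit_eq fun j => ?_
  rw [testBit_fld, Nat.zero_testBit, e, Nat.testBit_and]
  by_cases hj : j < 8
  · rw [decide_eq_true hj, Bool.true_and]
    by_contra hc
    rw [Bool.not_eq_false, Bool.and_eq_true] at hc
    have h1 := testBit_PT hc.1
    have h2 := testBit_PT hc.2
    have h3 : (8 * r + j) / 8 = r := by omega
    rw [h3] at h1 h2
    exact h ⟨h1, h2⟩
  · rw [decide_eq_false hj, Bool.false_and]

/-- sums over masks -/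
theorem sum_masks (g : Finset (Fin 13) → ℕ) :
    ∑ r ∈ range 8192, g (ofMask r) = ∑ s : Finset (Fin 13), g s := by
  refine sum_nbij' ofMask mk (fun _ _ => mem_univ _) (fun s _ => mem_range.2 (mk_lt s)) ?_ ?_ ?_
  · intro r hr
    exact mk_ofMask (mem_range.1 hr)
  · intro s _
    exact ofMask_mk s
  · intro r _
    rfl

/-- excess of the quads through two points -/
def gI (I : Finset Blk) (u v : Fin 13) (s : Blk) : ℕ :=
  if s.card = 4 ∧ {u, v} ⊆ s then ex I s else 0

/-- the total under the mask of a pair is at most the excess of the state -/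
theorem S_le {I : Finset Blk} (h5 : ∀ b ∈ I, b.card = 5) (u v : Fin 13) :
    (EW (pk 8 8192 (cf I)) &&& PP u.val v.val) % 255 ≤ LamW (ex I) {u, v} := by
  have hcf : ∀ i < 8192, cf I i < 2 ^ 8 := fun i _ => lt_of_le_of_lt (cf_le h5 i) (by norm_num)
  have hlt : (EW (pk 8 8192 (cf I)) &&& PP u.val v.val) < 2 ^ (8 * 8192) := by
    refine lt_of_le_of_lt Nat.and_le_left ?_
    have e : EW (pk 8 8192 (cf I)) = (pk 8 8192 (cf I) >>> 1) &&& (127 * rep 8 8192) := rfl
    rw [e]
    refine lt_of_le_of_lt Nat.and_le_left (lt_of_le_of_lt (Nat.shiftRight_le _ _) (pk_lt hcf))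
  rw [← pk_fld hlt]
  refine (Kill10.pk_mod255 8192 _).trans ?_
  have h1 : ∀ r ∈ range 8192, fld 8 (EW (pk 8 8192 (cf I)) &&& PP u.val v.val) r ≤
      gI I u v (ofMask r) := by
    intro r hr
    rw [mem_range] at hr
    rw [fld_land8, fld_EW hcf hr]
    unfold gI
    by_cases h2 : r.testBit u.val = true ∧ r.testBit v.val = true
    · by_cases h3 : (ofMask r).card = 4
      · rw [if_pos ⟨h3, by
          rw [insert_subset_iff, singleton_subset_iff, mem_ofMask, mem_ofMask]
          exact h2⟩]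
        refine Nat.and_le_left.trans ?_
        unfold cf ex
        rw [if_pos h3]
      · refine le_of_eq_of_le ?_ (Nat.zero_le _)
        unfold cf
        rw [if_neg h3, Nat.zero_div, Nat.zero_and]
    · rw [fld_PP h2, Nat.and_zero]
      exact Nat.zero_le _
  refine (sum_le_sum h1).trans (le_of_eq ?_)
  refine (sum_masks (gI I u v)).trans ?_
  unfold LamW quads gI
  rw [← sum_filter]
  refine sum_congr ?_ fun _ _ => rfl
  ext s
  simp only [mem_filter, mem_univ, true_and, mem_powersetCard, subset_univ]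

/-- one term of a test -/
theorem term_le {B I : Finset Blk} (hB : OddCover B) (hI : I ⊆ B) {u v : Fin 13} (huv : u ≠ v) :
    Nat.div (Nat.succ (Nat.mod (Nat.land (EW (pk 8 8192 (cf I))) (PP u.val v.val)) 255)) 3 ≤
      mm B u v := by
  have h1 := S_le (I := I) (fun b hb => hB.1 b (hI hb)) u v
  have h2 := mm_ge hB (g := ex I) (fun q _ => ex_mono hI q) huv
  show ((EW (pk 8 8192 (cf I)) &&& PP u.val v.val) % 255 + 1) / 3 ≤ mm B u v
  refine le_trans (Nat.div_le_div_right (Nat.succ_le_succ h1)) h2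

theorem tsum_cons (E m : ℕ) (l : List ℕ) : tsum E (m :: l) =
    tsum E l + Nat.div (Nat.succ (Nat.mod (Nat.land E m) 255)) 3 := rfl

theorem tsum_le {B I : Finset Blk} (hB : OddCover B) (hI : I ⊆ B) :
    ∀ l : List (Fin 13 × Fin 13), (∀ p ∈ l, p.1 ≠ p.2) →
      tsum (EW (pk 8 8192 (cf I))) (l.map fun p => PP p.1.val p.2.val) ≤
        (l.map fun p => mm B p.1 p.2).sum
  | [], _ => le_rfl
  | p :: l, h => by
    rw [List.map_cons, List.map_cons, List.sum_cons, tsum_cons, Nat.add_comm]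
    exact Nat.add_le_add (term_le hB hI (h p List.mem_cons_self))
      (tsum_le hB hI l fun p' hp' => h p' (List.mem_cons_of_mem _ hp'))

/-- the tests as lists of pairs of points -/
def ptestsF : List (ℕ × List (Fin 13 × Fin 13)) :=
  [(0, [(8, 9)]),
   (6, [(0, 8), (1, 8), (2, 8), (3, 8), (4, 8), (5, 8), (6, 8), (7, 8)]),
   (6, [(0, 9), (1, 9), (2, 9), (3, 9), (4, 9), (5, 9), (6, 9), (7, 9)]),
   (3, [(0, 8), (0, 9), (0, 10), (0, 11)]),
   (3, [(1, 8), (1, 9), (1, 10), (1, 11)]),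
   (3, [(2, 8), (2, 9), (2, 10), (2, 11)]),
   (3, [(3, 8), (3, 9), (3, 10), (3, 11)]),
   (3, [(4, 8), (4, 9), (4, 10), (4, 11)]),
   (3, [(5, 8), (5, 9), (5, 10), (5, 11)]),
   (3, [(6, 8), (6, 9), (6, 10), (6, 11)]),
   (3, [(7, 8), (7, 9), (7, 10), (7, 11)]),
   (5, [(0, 1), (0, 2), (0, 3), (0, 4), (0, 5), (0, 6), (0, 7)]),
   (5, [(0, 1), (1, 2), (1, 3), (1, 4), (1, 5), (1, 6), (1, 7)]),
   (5, [(0, 2), (1, 2), (2, 3), (2, 4), (2, 5), (2, 6), (2, 7)]),
   (5, [(0, 3), (1, 3), (2, 3), (3, 4), (3, 5), (3, 6), (3, 7)]),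
   (5, [(0, 4), (1, 4), (2, 4), (3, 4), (4, 5), (4, 6), (4, 7)]),
   (5, [(0, 5), (1, 5), (2, 5), (3, 5), (4, 5), (5, 6), (5, 7)]),
   (5, [(0, 6), (1, 6), (2, 6), (3, 6), (4, 6), (5, 6), (6, 7)]),
   (5, [(0, 7), (1, 7), (2, 7), (3, 7), (4, 7), (5, 7), (6, 7)])]

theorem ptests_eq : ptests = ptestsF.map fun t => (t.1, t.2.map fun p => PP p.1.val p.2.val) := by
  unfold ptests ptestsF
  simp only [List.map_cons, List.map_nil, Fin.isValue]
  simp

set_option maxRecDepth 4000 in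
theorem ptestsF_ne : ∀ t ∈ ptestsF, ∀ p ∈ t.2, p.1 ≠ p.2 := by decide

theorem q1 {a n : ℕ} (h : a = n) : a + 0 ≤ n := by omega

theorem q4 {a b c d n : ℕ} (h : a + b + c + d = n) : a + (b + (c + (d + 0))) ≤ n := by omega

theorem q7 {a b c d e f g n : ℕ} (h : a + (b + (c + (d + (e + (f + g))))) = n) :
    a + (b + (c + (d + (e + (f + (g + 0)))))) ≤ n := by omega

theorem q8 {a b c d e f g h n : ℕ} (H : a + b + c + d + e + f + g + h = n) :
    a + (b + (c + (d + (e + (f + (g + (h + 0))))))) ≤ n := by omega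

/-- the tests for a symmetric function -/
theorem capsAux (m : Fin 13 → Fin 13 → ℕ) (h : XFacts m) :
    ∀ t ∈ ptestsF, (t.2.map fun p => m p.1 p.2).sum ≤ t.1 := by
  intro t ht
  simp only [ptestsF, List.mem_cons, List.not_mem_nil, or_false] at ht
  rcases ht with rfl | rfl | rfl | rfl | rfl | rfl | rfl | rfl | rfl | rfl | rfl | rfl | rfl |
    rfl | rfl | rfl | rfl | rfl | rfl
  · exact q1 h.z89
  · exact q8 h.r8
  · exact q8 h.r9
  · exact q4 h.c0
  · exact q4 h.c1
  · exact q4 h.c2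
  · exact q4 h.c3
  · exact q4 h.c4
  · exact q4 h.c5
  · exact q4 h.c6
  · exact q4 h.c7
  · exact q7 h.w0
  · exact q7 h.w1
  · exact q7 h.w2
  · exact q7 h.w3
  · exact q7 h.w4
  · exact q7 h.w5
  · exact q7 h.w6
  · exact q7 h.w7

/-- the caps of stage X -/
theorem caps {B : Finset Blk} (h : XVec B 12 Y8) :
    ∀ t ∈ ptestsF, (t.2.map fun p => mm B p.1 p.2).sum ≤ t.1 :=
  capsAux (mm B) (xfacts h)


theorem pkill_cons (E : ℕ) (p : ℕ × List ℕ) (l : List (ℕ × List ℕ)) : pkill E (p :: l) =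
    cond (Nat.ble (Nat.succ p.1) (tsum E p.2)) true (pkill E l) := rfl

theorem pkill_false {B I : Finset Blk} (hB : OddCover B) (hI : I ⊆ B) :
    ∀ l : List (ℕ × List (Fin 13 × Fin 13)), (∀ t ∈ l, ∀ p ∈ t.2, p.1 ≠ p.2) →
      (∀ t ∈ l, (t.2.map fun p => mm B p.1 p.2).sum ≤ t.1) →
      pkill (EW (pk 8 8192 (cf I)))
        (l.map fun t => (t.1, t.2.map fun p => PP p.1.val p.2.val)) = false
  | [], _, _ => rfl
  | t :: l, h1, h2 => by
    rw [List.map_cons, pkill_cons]
    have h3 := tsum_le hB hI t.2 (h1 t List.mem_cons_self)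
    have h4 := h2 t List.mem_cons_self
    have h5 : Nat.ble (Nat.succ t.1) (tsum (EW (pk 8 8192 (cf I)))
        (t.2.map fun p => PP p.1.val p.2.val)) = false := by
      rw [← Bool.not_eq_true]
      intro h6
      have h7 := Nat.le_of_ble_eq_true h6
      omega
    show cond (Nat.ble (Nat.succ t.1) (tsum (EW (pk 8 8192 (cf I)))
        (t.2.map fun p => PP p.1.val p.2.val))) true _ = false
    rw [h5, cond_false]
    exact pkill_false hB hI l (fun t' ht' => h1 t' (List.mem_cons_of_mem _ ht'))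
      fun t' ht' => h2 t' (List.mem_cons_of_mem _ ht')

/-- soundness of the kill test -/
theorem killX_sound {B I : Finset Blk} (h : XVec B 12 Y8) (hI : I ⊆ B) :
    killX (pk 8 8192 (cf I)) = false := by
  unfold killX
  rw [ptests_eq]
  exact pkill_false h.odd hI ptestsF ptestsF_ne (caps h)

end Pool.Agent.Helper62.TY.XU
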