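import Pool.Agent.Helper62.TY.XUDefs
import Pool.Agent.Helper33.CV.Cube
import Pool.Agent.Helper55.TY.Root
import Pool.Agent.Helper97.CV.Kill10Sound

/-!
MP_8ee768_co, project TH-Y', stage X, machine for the survivors: meaning of the words.
-/

set_option autoImplicit false
set_option exponentiation.threshold 100000

namespace Pool.Agent.Helper62.TY.XU

open Finset
open Pool.Agent.Helper63.SIMD
open Pool.Agent.Helper89.CV (OddCover ofMask)
open Pool.Agent.Helper97.CV Pool.Agent.Helper79.CV
open Pool.Agent.Helper33.CV (ofMask_add_of_not)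
open Pool.Agent.Helper91.TY (testBit_fld testBit_mul_rep)
open Pool.Agent.Helper55.TY (Blk)

/-! ### the contribution of a block -/

theorem sub_two_pow {w a : ℕ} (h : w.testBit a = true) : w - 2 ^ a + 2 ^ a = w ∧
    (w - 2 ^ a).testBit a = false := by
  have h1 : 2 ^ a ≤ w := Nat.ge_two_pow_of_testBit h
  refine ⟨Nat.sub_add_cancel h1, ?_⟩
  by_contra h2
  rw [Bool.not_eq_false] at h2
  have h3 : w = w - 2 ^ a + 2 ^ a := (Nat.sub_add_cancel h1).symm
  rw [h3, Nat.add_comm, Nat.testBit_two_pow_add_eq, h2] at h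
  exact Bool.false_ne_true h

theorem ofMask_erase {w : ℕ} (a : Fin 13) (h : w.testBit a.val = true) :
    ofMask (w - 2 ^ a.val) = (ofMask w).erase a := by
  obtain ⟨h1, h2⟩ := sub_two_pow h
  have h3 := ofMask_add_of_not a h2
  rw [h1] at h3
  rw [h3, erase_insert]
  rw [mem_ofMask, h2]
  exact Bool.false_ne_true

theorem mk_erase {s : Finset (Fin 13)} {a : Fin 13} (h : a ∈ s) :
    mk (s.erase a) = mk s - 2 ^ a.val := by
  have h1 : (mk s).testBit a.val = true := by
    rw [testBit_mk, decide_eq_true h]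
  have h2 := ofMask_erase a h1
  rw [ofMask_mk] at h2
  rw [← h2, mk_ofMask]
  exact lt_of_le_of_lt (Nat.sub_le _ _) (mk_lt s)

theorem patN_succ (m v : ℕ) : patN m (v + 1) =
    patN m v + if m.testBit v then 2 ^ (8 * (m - 2 ^ v)) else 0 := by
  show patN m v + ((m >>> v) &&& 1) <<< (8 * (m - 2 ^ v)) = _
  congr 1
  rw [Nat.and_one_is_mod, Nat.shiftRight_eq_div_pow, Nat.shiftLeft_eq]
  by_cases h : m.testBit v = true
  · rw [if_pos h]
    rw [Nat.testBit_eq_decide_div_mod_eq, decide_eq_true_eq] at h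
    rw [h, one_mul]
  · rw [if_neg h]
    rw [Nat.testBit_eq_decide_div_mod_eq, decide_eq_true_eq] at h
    have h1 : m / 2 ^ v % 2 = 0 := by omega
    rw [h1, zero_mul]

theorem patN_eq (m n : ℕ) : patN m n =
    ∑ v ∈ (range n).filter (fun v => m.testBit v = true), 2 ^ (8 * (m - 2 ^ v)) := by
  induction n with
  | zero => rfl
  | succ n ih =>
    rw [patN_succ, ih, range_add_one, filter_insert]
    split_ifs with h
    · rw [sum_insert, add_comm]
      intro h1
      exact (mem_range.1 (mem_filter.1 h1).1).ne rfl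
    · rfl

/-- the field function of one block -/
def pf (b : Finset (Fin 13)) (r : ℕ) : ℕ := if (ofMask r).card = 4 ∧ ofMask r ⊆ b then 1 else 0

/-- the contribution of a block -/
theorem pat_eq {b : Finset (Fin 13)} (hb : b.card = 5) : pat (mk b) = pk 8 8192 (pf b) := by
  unfold pat
  rw [patN_eq]
  unfold pk pf
  have h1 : ∀ r ∈ range 8192, (if (ofMask r).card = 4 ∧ ofMask r ⊆ b then 1 else 0) *
      2 ^ (8 * r) = if (ofMask r).card = 4 ∧ ofMask r ⊆ b then 2 ^ (8 * r) else 0 := by
    intro r _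
    split_ifs
    · rw [one_mul]
    · rw [zero_mul]
  rw [sum_congr rfl h1, ← sum_filter]
  refine sum_bij (fun v _ => mk b - 2 ^ v) ?_ ?_ ?_ ?_
  · intro v hv
    rw [mem_filter, mem_range] at hv
    have h2 := ofMask_erase ⟨v, hv.1⟩ hv.2
    simp only at h2
    rw [ofMask_mk] at h2
    have h3 : (⟨v, hv.1⟩ : Fin 13) ∈ b := by
      have h4 := testBit_mk b ⟨v, hv.1⟩
      exact of_decide_eq_true (h4.symm.trans hv.2)
    rw [mem_filter, mem_range, h2, card_erase_of_mem h3, hb]
    exact ⟨lt_of_le_of_lt (Nat.sub_le _ _) (mk_lt b), rfl, erase_subset _ _⟩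
  · intro v hv w hw h
    rw [mem_filter, mem_range] at hv hw
    have h2 := (sub_two_pow hv.2).1
    have h3 := (sub_two_pow hw.2).1
    have h4 : 2 ^ v = 2 ^ w := by
      have h5 : mk b - 2 ^ v = mk b - 2 ^ w := h
      omega
    exact Nat.pow_right_injective le_rfl h4
  · intro r hr
    rw [mem_filter, mem_range] at hr
    obtain ⟨hr1, hr2, hr3⟩ := hr
    have h2 : (b \ ofMask r).card = 1 := by
      rw [card_sdiff_of_subset hr3, hb, hr2]
    obtain ⟨v, hv⟩ := card_eq_one.1 h2
    have hvb : v ∈ b \ ofMask r := by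
      rw [hv]
      exact mem_singleton_self v
    rw [mem_sdiff] at hvb
    have h3 : ofMask r = b.erase v := by
      rw [← sdiff_singleton_eq_erase, ← hv, Finset.sdiff_sdiff_eq_self hr3]
    refine ⟨v.val, ?_, ?_⟩
    · rw [mem_filter, mem_range]
      refine ⟨v.isLt, ?_⟩
      rw [testBit_mk, decide_eq_true hvb.1]
    · rw [← mk_erase hvb.1, ← h3, mk_ofMask hr1]
  · intro v _
    rfl

/-! ### the count word -/

/-- the field function of the count word -/
def cf (I : Finset Blk) (r : ℕ) : ℕ := if (ofMask r).card = 4 then cnt I (ofMask r) else 0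

theorem cf_insert {I : Finset Blk} {b : Blk} (hb : b ∉ I) (r : ℕ) :
    cf (insert b I) r = cf I r + pf b r := by
  unfold cf pf
  by_cases h : (ofMask r).card = 4
  · rw [if_pos h, if_pos h, Pool.Agent.Helper55.TY.cnt_insert hb]
    congr 1
    exact if_congr (by simp [h]) rfl rfl
  · rw [if_neg h, if_neg h, if_neg fun h1 => h h1.1]

theorem cf_empty (r : ℕ) : cf ∅ r = 0 := by
  unfold cf
  rw [Pool.Agent.Helper55.TY.cnt_empty, ite_self]

theorem cnt_le_13 {I : Finset Blk} (h5 : ∀ b ∈ I, b.card = 5) {q : Blk} (hq : q.card = 4) :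
    cnt I q ≤ 13 := by
  unfold cnt
  have h1 : I.filter (fun b => q ⊆ b) ⊆ (univ : Finset (Fin 13)).image fun v => insert v q := by
    intro b hb
    rw [mem_filter] at hb
    have h2 : (b \ q).card = 1 := by
      rw [card_sdiff_of_subset hb.2, h5 b hb.1, hq]
    obtain ⟨v, hv⟩ := card_eq_one.1 h2
    rw [mem_image]
    refine ⟨v, mem_univ v, ?_⟩
    rw [insert_eq, ← hv, sdiff_union_of_subset hb.2]
  refine (card_le_card h1).trans (card_image_le.trans ?_)
  rw [card_univ, Fintype.card_fin]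

theorem cf_le {I : Finset Blk} (h5 : ∀ b ∈ I, b.card = 5) (r : ℕ) : cf I r ≤ 13 := by
  unfold cf
  split_ifs with h
  · exact cnt_le_13 h5 h
  · omega

/-- adding a block -/
theorem add_pat {I : Finset Blk} {b : Blk} (hb : b ∉ I) (h5 : b.card = 5) :
    pk 8 8192 (cf I) + pat (mk b) = pk 8 8192 (cf (insert b I)) := by
  rw [pat_eq h5, pk_add]
  exact pk_congr fun r _ => (cf_insert hb r).symm

end Pool.Agent.Helper62.TY.XU
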